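import Mathlib

/-!
# Project DER, part S1: forms on the disc

`r : G →* Matrix (Fin 2) (Fin 2) ℂ` is a representation by matrices which preserve the form
`|z_0|^2 - |z_1|^2` (the negative coordinate is the last one); the group acts on the vectors
`(x, 1)`, `‖x‖ < 1`, by Moebius maps. `Fo r μ k f`: `f` is a form of weight `k` with multiplier `μ`.
-/

set_option autoImplicit false

namespace Pool.Agent.Lib.MP_5d4057_al.TR

open Metric

/-- Two by two matrices. -/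
abbrev M2 : Type := Matrix (Fin 2) (Fin 2) ℂ

/-- The automorphy factor. -/
def jf (g : M2) (x : ℂ) : ℂ := g 1 0 * x + g 1 1

/-- The Moebius map. -/
noncomputable def mo (g : M2) (x : ℂ) : ℂ := (g 0 0 * x + g 0 1) / jf g x

/-- `g` preserves the form `|z_0|^2 - |z_1|^2`. -/
structure Uni (g : M2) : Prop where
  h0 : ‖g 0 0‖ ^ 2 - ‖g 1 0‖ ^ 2 = 1
  h1 : ‖g 1 1‖ ^ 2 - ‖g 0 1‖ ^ 2 = 1
  h2 : star (g 0 0) * g 0 1 = star (g 1 0) * g 1 1

variable {G : Type} [Group G]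

/-- Cocompactness. -/
def Cpt (r : G →* M2) : Prop :=
  ∃ ρ : ℝ, ρ < 1 ∧ ∀ x ∈ ball (0 : ℂ) 1, ∃ g : G, ∃ y : ℂ, ‖y‖ ≤ ρ ∧ x = mo (r g) y

/-- Forms of weight `k` with multiplier `μ`. -/
structure Fo (r : G →* M2) (μ : G → ℂ) (k : ℕ) (f : ℂ → ℂ) : Prop where
  diff : DifferentiableOn ℂ f (ball 0 1)
  inv : ∀ g : G, ∀ x ∈ ball (0 : ℂ) 1, f (mo (r g) x) = μ g * jf (r g) x ^ k * f x

/-- The Wronskian. -/
noncomputable def Wr (f h : ℂ → ℂ) (x : ℂ) : ℂ := f x * deriv h x - deriv f x * h x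

/-- The bracket of `f` and `Wr f h`, for `f` and `h` of weight `k`. -/
noncomputable def Vr (k : ℕ) (f h : ℂ → ℂ) (x : ℂ) : ℂ :=
  k * f x * deriv (Wr f h) x - (2 * k + 2) * deriv f x * Wr f h x

/-- Polynomial growth. -/
def Gro (f : ℂ → ℂ) : Prop :=
  ∃ C : ℝ, ∃ N : ℕ, 0 ≤ C ∧ ∀ x ∈ ball (0 : ℂ) 1, ‖f x‖ ≤ C * ((1 - ‖x‖) ^ N)⁻¹

/-- The input of part S1: a space `A` of forms of weight `k` which is stable under all derivations
of `ℂ` modulo a quadratic vector field. -/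
structure Inp (r : G →* M2) (k : ℕ) (A : Submodule ℂ (ℂ → ℂ)) : Prop where
  form : ∀ f ∈ A, Fo r (fun _ => 1) k f
  der : ∀ D : Derivation ℤ ℂ ℂ, ∃ a b c : ℂ, ∀ f ∈ A, ∃ f' ∈ A, ∀ l : ℕ,
    D (iteratedDeriv l f 0) = iteratedDeriv l (fun x => f' x + (a + b * x + c * x ^ 2) * deriv f x +
      k / 2 * (b + 2 * c * x) * f x) 0
  two : ∃ f ∈ A, ∃ h ∈ A, ∃ x ∈ ball (0 : ℂ) 1, Wr f h x ≠ 0

/-- The monomials: `h^i f^(N-i) (V f)^j (W^2)^(N-j)`, forms of weight `N (5 k + 4)`. -/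
noncomputable def mon (k N : ℕ) (f h : ℂ → ℂ) (s : Fin (N + 1) × Fin (N + 1)) (x : ℂ) : ℂ :=
  h x ^ (s.1 : ℕ) * f x ^ (N - s.1) * (Vr k f h x * f x) ^ (s.2 : ℕ) *
    (Wr f h x ^ 2) ^ (N - s.2)

end Pool.Agent.Lib.MP_5d4057_al.TR
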