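import Pool.Agent.Lib.MP_5d4057_al.TR.Form

/-! # Growth of forms -/

set_option autoImplicit false

namespace Pool.Agent.Lib.MP_5d4057_al.TR

open Metric

variable {G : Type} [Group G] {r : G →* M2} {μ : G → ℂ} {k : ℕ} {f h : ℂ → ℂ}

theorem one_le_inv_pow {x : ℂ} (hx : x ∈ ball (0 : ℂ) 1) (N : ℕ) :
    1 ≤ ((1 - ‖x‖) ^ N)⁻¹ := by
  have hx1 : ‖x‖ < 1 := by simpa using hx
  have h0 : 0 < 1 - ‖x‖ := by linarith
  exact (one_le_inv₀ (pow_pos h0 N)).2 (pow_le_one₀ h0.le (by linarith [norm_nonneg x]))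

theorem inv_pow_le {x : ℂ} (hx : x ∈ ball (0 : ℂ) 1) {M N : ℕ} (h : M ≤ N) :
    ((1 - ‖x‖) ^ M)⁻¹ ≤ ((1 - ‖x‖) ^ N)⁻¹ := by
  have hx1 : ‖x‖ < 1 := by simpa using hx
  have h0 : 0 < 1 - ‖x‖ := by linarith
  exact inv_anti₀ (pow_pos h0 N) (pow_le_pow_of_le_one h0.le (by linarith [norm_nonneg x]) h)

theorem Gro.mul (hf : Gro f) (hh : Gro h) : Gro (fun x => f x * h x) := by
  obtain ⟨C, N, hC, hf⟩ := hf
  obtain ⟨D, M, hD, hh⟩ := hh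
  refine ⟨C * D, N + M, mul_nonneg hC hD, fun x hx => ?_⟩
  rw [norm_mul, pow_add, mul_inv]
  calc ‖f x‖ * ‖h x‖ ≤ (C * ((1 - ‖x‖) ^ N)⁻¹) * (D * ((1 - ‖x‖) ^ M)⁻¹) :=
        mul_le_mul (hf x hx) (hh x hx) (norm_nonneg _) (le_trans (norm_nonneg _) (hf x hx))
    _ = C * D * (((1 - ‖x‖) ^ N)⁻¹ * ((1 - ‖x‖) ^ M)⁻¹) := by ring

theorem Gro.add (hf : Gro f) (hh : Gro h) : Gro (fun x => f x + h x) := by
  obtain ⟨C, N, hC, hf⟩ := hf
  obtain ⟨D, M, hD, hh⟩ := hh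
  refine ⟨C + D, N + M, add_nonneg hC hD, fun x hx => ?_⟩
  calc ‖f x + h x‖ ≤ ‖f x‖ + ‖h x‖ := norm_add_le _ _
    _ ≤ C * ((1 - ‖x‖) ^ N)⁻¹ + D * ((1 - ‖x‖) ^ M)⁻¹ := add_le_add (hf x hx) (hh x hx)
    _ ≤ C * ((1 - ‖x‖) ^ (N + M))⁻¹ + D * ((1 - ‖x‖) ^ (N + M))⁻¹ :=
        add_le_add (mul_le_mul_of_nonneg_left (inv_pow_le hx (Nat.le_add_right _ _)) hC)
          (mul_le_mul_of_nonneg_left (inv_pow_le hx (Nat.le_add_left _ _)) hD)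
    _ = (C + D) * ((1 - ‖x‖) ^ (N + M))⁻¹ := by ring

theorem Gro.const (c : ℂ) : Gro (fun _ => c) :=
  ⟨‖c‖, 0, norm_nonneg c, fun x _ => by rw [pow_zero, inv_one, mul_one]⟩

theorem Gro.sub (hf : Gro f) (hh : Gro h) : Gro (fun x => f x - h x) := by
  have h1 := hf.add ((Gro.const (-1)).mul hh)
  refine (funext fun x => ?_ : (fun x => f x - h x) = fun x => f x + -1 * h x) ▸ h1
  ring

theorem Gro.pow (hf : Gro f) (n : ℕ) : Gro (fun x => f x ^ n) := by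
  induction n with
  | zero =>
    refine (funext fun x => ?_ : (fun x => f x ^ 0) = fun _ => (1 : ℂ)) ▸ Gro.const 1
    exact pow_zero _
  | succ n ih =>
    refine (funext fun x => ?_ : (fun x => f x ^ (n + 1)) = fun x => f x ^ n * f x) ▸ ih.mul hf
    exact pow_succ _ _

/-- Cauchy. -/
theorem Gro.deriv (hd : DifferentiableOn ℂ f (ball 0 1)) (hf : Gro f) : Gro (deriv f) := by
  obtain ⟨C, N, hC, hf⟩ := hf
  refine ⟨C * 2 ^ (N + 1), N + 1, by positivity, fun x hx => ?_⟩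
  have hx1 : ‖x‖ < 1 := by simpa using hx
  have h0 : 0 < 1 - ‖x‖ := by linarith
  set R : ℝ := (1 - ‖x‖) / 2 with hR
  have hR0 : 0 < R := by positivity
  have hsub : ∀ z ∈ closedBall x R, ‖z‖ ≤ ‖x‖ + R := by
    intro z hz
    have h1 : ‖z - x‖ ≤ R := by simpa [dist_eq_norm] using hz
    calc ‖z‖ = ‖x + (z - x)‖ := by rw [add_sub_cancel]
      _ ≤ ‖x‖ + ‖z - x‖ := norm_add_le _ _
      _ ≤ ‖x‖ + R := by linarith
  have hin : closedBall x R ⊆ ball (0 : ℂ) 1 := by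
    intro z hz
    rw [mem_ball_zero_iff]
    have := hsub z hz
    rw [hR] at this
    linarith
  have hdc : DiffContOnCl ℂ f (ball x R) := by
    refine DifferentiableOn.diffContOnCl ?_
    rw [closure_ball x hR0.ne']
    exact hd.mono hin
  have hbd : ∀ z ∈ sphere x R, ‖f z‖ ≤ C * (R ^ N)⁻¹ := by
    intro z hz
    have hz' : z ∈ closedBall x R := sphere_subset_closedBall hz
    refine (hf z (hin hz')).trans (mul_le_mul_of_nonneg_left ?_ hC)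
    refine inv_anti₀ (pow_pos hR0 N) (pow_le_pow_left₀ hR0.le ?_ N)
    have := hsub z hz'
    rw [hR] at this ⊢
    linarith
  refine (Complex.norm_deriv_le_of_forall_mem_sphere_norm_le hR0 hdc hbd).trans (le_of_eq ?_)
  have hb : (1 - ‖x‖) ≠ 0 := h0.ne'
  rw [hR, div_pow, pow_succ, pow_succ]
  field_simp

/-- `‖f x‖ (1 - ‖x‖^2)^(k/2)` is invariant, so bounded. -/
theorem Fo.gro (hr : ∀ g, Uni (r g)) (hc : Cpt r) (hμ : ∀ g, ‖μ g‖ = 1) (hf : Fo r μ k f) :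
    Gro f := by
  obtain ⟨ρ, hρ, hc⟩ := hc
  obtain ⟨M, hM⟩ := (isCompact_closedBall (0 : ℂ) ρ).exists_bound_of_continuousOn
    (hf.diff.continuousOn.mono (closedBall_subset_ball hρ))
  refine ⟨max M 0, k, le_max_right _ _, fun x hx => ?_⟩
  obtain ⟨g, y, hy, rfl⟩ := hc x hx
  have hy1 : y ∈ ball (0 : ℂ) 1 := by
    rw [mem_ball_zero_iff]
    exact lt_of_le_of_lt hy hρ
  have hx1 : ‖mo (r g) y‖ < 1 := by simpa using hx
  have h0 : 0 < 1 - ‖mo (r g) y‖ := by linarith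
  have h1 := one_sub_mo (hr g) hy1
  have hj2 : ‖jf (r g) y‖ ^ 2 * (1 - ‖mo (r g) y‖) ≤ 1 := by
    nlinarith [sq_nonneg ‖jf (r g) y‖, norm_nonneg (mo (r g) y), sq_nonneg ‖y‖,
      mul_nonneg (sq_nonneg ‖jf (r g) y‖) (mul_nonneg (norm_nonneg (mo (r g) y)) h0.le)]
  have hj1 : ‖jf (r g) y‖ ^ 2 * (1 - ‖mo (r g) y‖) ^ 2 ≤ 1 := by
    have h2 : ‖jf (r g) y‖ ^ 2 * (1 - ‖mo (r g) y‖) ^ 2 ≤
        ‖jf (r g) y‖ ^ 2 * (1 - ‖mo (r g) y‖) := by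
      refine mul_le_mul_of_nonneg_left ?_ (sq_nonneg _)
      nlinarith [norm_nonneg (mo (r g) y)]
    exact h2.trans hj2
  have hj : ‖jf (r g) y‖ * (1 - ‖mo (r g) y‖) ≤ 1 := by
    rw [← mul_pow] at hj1
    exact (pow_le_one_iff_of_nonneg (mul_nonneg (norm_nonneg _) h0.le) two_ne_zero).1 hj1
  have hjk : ‖jf (r g) y‖ ^ k ≤ ((1 - ‖mo (r g) y‖) ^ k)⁻¹ := by
    rw [← one_div, le_div_iff₀ (pow_pos h0 k), ← mul_pow]
    exact pow_le_one₀ (mul_nonneg (norm_nonneg _) h0.le) hj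
  have hM1 : ‖f y‖ ≤ max M 0 := (hM y (by simpa using hy)).trans (le_max_left _ _)
  rw [hf.inv g y hy1, norm_mul, norm_mul, norm_pow, hμ g, one_mul, mul_comm (max M 0)]
  exact mul_le_mul hjk hM1 (norm_nonneg _) (inv_nonneg.2 (pow_pos h0 k).le)

end Pool.Agent.Lib.MP_5d4057_al.TR
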