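import Pool.Agent.Lib.MP_5d4057_al.TR.Form
import Pool.Agent.Lib.MP_5d4057_al.QB.FmB

/-! # The dimension of spaces of forms -/

set_option autoImplicit false

namespace Pool.Agent.Lib.MP_5d4057_al.TR

open Metric Filter Topology Asymptotics

variable {G : Type} [Group G] {r : G →* M2}

/-- The invariant norm of a form. -/
theorem nrm_inv (hr : ∀ g, Uni (r g)) {μ : G → ℂ} (hμ : ∀ g, ‖μ g‖ = 1) {k : ℕ}
    {f : ℂ → ℂ} (hf : Fo r μ k f) (g : G) {x : ℂ} (hx : x ∈ ball (0 : ℂ) 1) :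
    ‖f (mo (r g) x)‖ ^ 2 * (1 - ‖mo (r g) x‖ ^ 2) ^ k = ‖f x‖ ^ 2 * (1 - ‖x‖ ^ 2) ^ k := by
  have h1 := one_sub_mo (hr g) hx
  rw [hf.inv g x hx, norm_mul, norm_mul, hμ, one_mul, norm_pow, ← h1]
  rw [mul_pow, mul_pow, ← pow_mul, ← pow_mul, mul_comm k 2]
  ring

theorem one_sub_pos {x : ℂ} (hx : x ∈ ball (0 : ℂ) 1) : 0 < 1 - ‖x‖ ^ 2 := by
  rw [mem_ball_zero_iff] at hx
  have := norm_nonneg x
  nlinarith

/-- The norm of a form has a maximum, in the compact part. -/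
theorem exists_max_cpt (hr : ∀ g, Uni (r g)) {ρ : ℝ} (hρ : ρ < 1)
    (hc : ∀ x ∈ ball (0 : ℂ) 1, ∃ g : G, ∃ y : ℂ, ‖y‖ ≤ ρ ∧ x = mo (r g) y) {μ : G → ℂ}
    (hμ : ∀ g, ‖μ g‖ = 1) {k : ℕ} {f : ℂ → ℂ} (hf : Fo r μ k f) :
    ∃ x₀ : ℂ, ‖x₀‖ ≤ ρ ∧ ∀ x ∈ ball (0 : ℂ) 1,
      ‖f x‖ ^ 2 * (1 - ‖x‖ ^ 2) ^ k ≤ ‖f x₀‖ ^ 2 * (1 - ‖x₀‖ ^ 2) ^ k := by
  have hρ0 : 0 ≤ ρ := by
    obtain ⟨g, y, hy, -⟩ := hc 0 (mem_ball_self one_pos)
    exact (norm_nonneg y).trans hy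
  have hsub : closedBall (0 : ℂ) ρ ⊆ ball 0 1 := closedBall_subset_ball hρ
  have hcont : ContinuousOn (fun x : ℂ => ‖f x‖ ^ 2 * (1 - ‖x‖ ^ 2) ^ k) (closedBall 0 ρ) := by
    have h1 : ContinuousOn f (closedBall 0 ρ) := hf.diff.continuousOn.mono hsub
    have h2 : ContinuousOn (fun x : ℂ => (1 - ‖x‖ ^ 2) ^ k) (closedBall 0 ρ) := by fun_prop
    exact (h1.norm.pow 2).mul h2
  obtain ⟨x₀, hx₀, hm⟩ := (isCompact_closedBall (0 : ℂ) ρ).exists_isMaxOn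
    ⟨0, mem_closedBall_self hρ0⟩ hcont
  refine ⟨x₀, mem_closedBall_zero_iff.1 hx₀, fun x hx => ?_⟩
  obtain ⟨g, y, hy, rfl⟩ := hc x hx
  have hyb : y ∈ closedBall (0 : ℂ) ρ := mem_closedBall_zero_iff.2 hy
  rw [nrm_inv hr hμ hf g (hsub hyb)]
  exact hm hyb

/-- The norm of a form has a maximum. -/
theorem exists_max (hr : ∀ g, Uni (r g)) (hc : Cpt r) {μ : G → ℂ} (hμ : ∀ g, ‖μ g‖ = 1) {k : ℕ}
    {f : ℂ → ℂ} (hf : Fo r μ k f) : ∃ x₀ ∈ ball (0 : ℂ) 1, ∀ x ∈ ball (0 : ℂ) 1,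
      ‖f x‖ ^ 2 * (1 - ‖x‖ ^ 2) ^ k ≤ ‖f x₀‖ ^ 2 * (1 - ‖x₀‖ ^ 2) ^ k := by
  obtain ⟨ρ, hρ, hc⟩ := hc
  obtain ⟨x₀, hx₀, h⟩ := exists_max_cpt hr hρ hc hμ hf
  exact ⟨x₀, mem_ball_zero_iff.2 (hx₀.trans_lt hρ), h⟩

/-- A holomorphic function with vanishing derivatives is small. -/
theorem isBigO_of_iter {f : ℂ → ℂ} (hf : DifferentiableOn ℂ f (ball 0 1)) {T : ℕ}
    (h : ∀ i < T, iteratedDeriv i f 0 = 0) : f =O[𝓝 0] fun z => z ^ T := by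
  have ha : AnalyticAt ℂ f 0 := hf.analyticAt (isOpen_ball.mem_nhds (mem_ball_self one_pos))
  have h1 : (T : ℕ∞) ≤ analyticOrderAt f 0 :=
    (natCast_le_analyticOrderAt_iff_iteratedDeriv_eq_zero ha).2 h
  rw [natCast_le_analyticOrderAt ha] at h1
  obtain ⟨g, hg, hfg⟩ := h1
  have h2 : f =ᶠ[𝓝 0] fun z => z ^ T * g z := by
    filter_upwards [hfg] with z hz
    rw [hz, sub_zero, smul_eq_mul]
  refine h2.trans_isBigO ?_
  have h3 : g =O[𝓝 0] fun _ => (1 : ℂ) := hg.continuousAt.isBigO_one ℂ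
  have h4 := (isBigO_refl (fun z : ℂ => z ^ T) (𝓝 0)).mul h3
  simpa using h4

/-- A form of weight `k` with a zero of order `≥ C (k + 1)` at the origin is zero. -/
theorem zero_bound (hr : ∀ g, Uni (r g)) (hc : Cpt r) : ∃ C : ℕ, ∀ (μ : G → ℂ) (_ : ∀ g, ‖μ g‖ = 1)
    (k : ℕ) (f : ℂ → ℂ) (_ : Fo r μ k f) (_ : ∀ i < C * (k + 1), iteratedDeriv i f 0 = 0),
    ∀ x ∈ ball (0 : ℂ) 1, f x = 0 := by
  obtain ⟨ρ, hρ, hc⟩ := hc
  have hρ0 : 0 ≤ ρ := by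
    obtain ⟨g, y, hy, -⟩ := hc 0 (mem_ball_self one_pos)
    exact (norm_nonneg y).trans hy
  set R : ℝ := (1 + ρ) / 2 with hR
  have hR0 : 0 < R := by rw [hR]; linarith
  have hR1 : R < 1 := by rw [hR]; linarith
  have hρR : ρ < R := by rw [hR]; linarith
  set a : ℝ := (ρ / R) ^ 2 with ha
  have ha0 : 0 ≤ a := by positivity
  have ha1 : a < 1 := by
    rw [ha]
    exact pow_lt_one₀ (by positivity) ((div_lt_one hR0).2 hρR) two_ne_zero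
  have hd : 0 < 1 - R ^ 2 := by nlinarith
  have hd1 : 1 - R ^ 2 ≤ 1 := by nlinarith
  obtain ⟨C₀, hC₀⟩ := exists_pow_lt_of_lt_one hd ha1
  refine ⟨C₀ + 1, fun μ hμ k f hf hz => ?_⟩
  set C := C₀ + 1 with hC
  have hCa : a ^ C < 1 - R ^ 2 := by
    refine lt_of_le_of_lt ?_ hC₀
    rw [hC, pow_succ]
    exact mul_le_of_le_one_right (pow_nonneg ha0 _) ha1.le
  obtain ⟨x₀, hx₀, hmax⟩ := exists_max_cpt hr hρ hc hμ hf
  have hx₀b : x₀ ∈ ball (0 : ℂ) 1 := mem_ball_zero_iff.2 (hx₀.trans_lt hρ)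
  -- the value at the maximum point vanishes
  have hkey : f x₀ = 0 := by
    by_contra hne
    have hpos : 0 < ‖f x₀‖ := norm_pos_iff.2 hne
    set s : ℝ := Real.sqrt (1 - R ^ 2) with hs
    have hs0 : 0 < s := Real.sqrt_pos.2 hd
    have hs2 : s ^ 2 = 1 - R ^ 2 := Real.sq_sqrt hd.le
    have hM : ∀ t ∈ ball (0 : ℂ) R, ‖f t‖ ≤ ‖f x₀‖ / s ^ k := by
      intro t ht
      rw [mem_ball_zero_iff] at ht
      have ht1 : t ∈ ball (0 : ℂ) 1 := mem_ball_zero_iff.2 (ht.trans hR1)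
      have h1 := hmax t ht1
      have h2 : (s ^ k) ^ 2 ≤ (1 - ‖t‖ ^ 2) ^ k := by
        rw [← pow_mul, mul_comm, pow_mul, hs2]
        refine pow_le_pow_left₀ hd.le ?_ k
        have := norm_nonneg t
        nlinarith
      have h3 : (1 - ‖x₀‖ ^ 2) ^ k ≤ 1 := by
        refine pow_le_one₀ (one_sub_pos hx₀b).le ?_
        have := sq_nonneg ‖x₀‖
        linarith
      have h4 : (‖f t‖ * s ^ k) ^ 2 ≤ ‖f x₀‖ ^ 2 := by
        calc (‖f t‖ * s ^ k) ^ 2 = ‖f t‖ ^ 2 * (s ^ k) ^ 2 := by ring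
          _ ≤ ‖f t‖ ^ 2 * (1 - ‖t‖ ^ 2) ^ k := by gcongr
          _ ≤ ‖f x₀‖ ^ 2 * (1 - ‖x₀‖ ^ 2) ^ k := h1
          _ ≤ ‖f x₀‖ ^ 2 * 1 := by gcongr
          _ = _ := mul_one _
      have h5 := abs_le_of_sq_le_sq' h4 hpos.le
      rw [le_div_iff₀ (pow_pos hs0 k)]
      exact h5.2
    have hfd : DifferentiableOn ℂ f (ball 0 R) := hf.diff.mono (ball_subset_ball hR1.le)
    have h6 := QB.schwarz_ord hR0 (C * (k + 1)) hfd hM (isBigO_of_iter hf.diff hz) x₀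
      (mem_ball_zero_iff.2 (hx₀.trans_lt hρR))
    have h7 : ‖f x₀‖ * s ^ k ≤ ‖f x₀‖ * (ρ / R) ^ (C * (k + 1)) := by
      have h8 : (‖x₀‖ / R) ^ (C * (k + 1)) ≤ (ρ / R) ^ (C * (k + 1)) := by gcongr
      calc ‖f x₀‖ * s ^ k ≤ (‖f x₀‖ / s ^ k * (‖x₀‖ / R) ^ (C * (k + 1))) * s ^ k := by gcongr
        _ = ‖f x₀‖ * (‖x₀‖ / R) ^ (C * (k + 1)) := by
            field_simp
        _ ≤ _ := by gcongr
    have h9 : s ^ k ≤ (ρ / R) ^ (C * (k + 1)) := le_of_mul_le_mul_left h7 hpos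
    have h10 : (1 - R ^ 2) ^ k ≤ (a ^ C) ^ (k + 1) := by
      have h11 : (s ^ k) ^ 2 ≤ ((ρ / R) ^ (C * (k + 1))) ^ 2 :=
        pow_le_pow_left₀ (by positivity) h9 2
      calc (1 - R ^ 2) ^ k = (s ^ k) ^ 2 := by rw [← hs2]; ring
        _ ≤ ((ρ / R) ^ (C * (k + 1))) ^ 2 := h11
        _ = (a ^ C) ^ (k + 1) := by rw [ha]; ring
    have h12 : (a ^ C) ^ (k + 1) < (1 - R ^ 2) ^ (k + 1) :=
      pow_lt_pow_left₀ hCa (pow_nonneg ha0 _) (Nat.succ_ne_zero k)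
    have h13 : (1 - R ^ 2) ^ (k + 1) ≤ (1 - R ^ 2) ^ k :=
      pow_le_pow_of_le_one hd.le hd1 (Nat.le_succ k)
    linarith
  intro x hx
  have h1 := hmax x hx
  rw [hkey, norm_zero] at h1
  have h2 := pow_pos (one_sub_pos hx) k
  have h3 : ‖f x‖ ^ 2 ≤ 0 := by
    have h4 : ‖f x‖ ^ 2 * (1 - ‖x‖ ^ 2) ^ k ≤ 0 := by simpa using h1
    by_contra h5
    rw [not_le] at h5
    have := mul_pos h5 h2
    linarith
  have h6 : ‖f x‖ = 0 := by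
    have := sq_nonneg ‖f x‖
    exact pow_eq_zero_iff two_ne_zero |>.1 (le_antisymm h3 this)
  exact norm_eq_zero.1 h6

theorem iteratedDeriv_comb {ι : Type} (s : Finset ι) (F : ι → ℂ → ℂ) (c : ι → ℂ)
    (hF : ∀ i ∈ s, DifferentiableOn ℂ (F i) (ball 0 1)) (l : ℕ) :
    iteratedDeriv l (fun x => ∑ i ∈ s, c i * F i x) 0 = ∑ i ∈ s, c i * iteratedDeriv l (F i) 0 := by
  classical
  have hcd : ∀ i ∈ s, ContDiffAt ℂ l (F i) 0 := fun i hi =>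
    ((hF i hi).analyticAt (isOpen_ball.mem_nhds (mem_ball_self one_pos))).contDiffAt
  induction s using Finset.induction_on with
  | empty =>
    simp only [Finset.sum_empty]
    rw [iteratedDeriv_const]
    split_ifs <;> rfl
  | insert i s hi ih =>
    have h1 : ContDiffAt ℂ l (fun x => c i * F i x) 0 :=
      contDiffAt_const.mul (hcd i (Finset.mem_insert_self i s))
    have h2 : ContDiffAt ℂ l (fun x => ∑ j ∈ s, c j * F j x) 0 :=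
      ContDiffAt.sum fun j hj => contDiffAt_const.mul (hcd j (Finset.mem_insert_of_mem hj))
    have h3 : (fun x => ∑ j ∈ insert i s, c j * F j x) =
        (fun x => c i * F i x) + fun x => ∑ j ∈ s, c j * F j x := by
      funext x
      rw [Finset.sum_insert hi]
      rfl
    rw [h3, iteratedDeriv_add h1 h2, Finset.sum_insert hi,
      ih (fun j hj => hF j (Finset.mem_insert_of_mem hj))
        (fun j hj => hcd j (Finset.mem_insert_of_mem hj))]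
    rw [iteratedDeriv_const_mul (c i) (hcd i (Finset.mem_insert_self i s))]

/-- More than `C (k + 1)` forms of weight `k` with the same multiplier are linearly dependent. -/
theorem dep (hr : ∀ g, Uni (r g)) (hc : Cpt r) : ∃ C : ℕ, ∀ (μ : G → ℂ) (_ : ∀ g, ‖μ g‖ = 1)
    (k : ℕ) (ι : Type) [Fintype ι] (F : ι → ℂ → ℂ) (_ : ∀ i, Fo r μ k (F i))
    (_ : C * (k + 1) < Fintype.card ι),
    ∃ c : ι → ℂ, c ≠ 0 ∧ ∀ x ∈ ball (0 : ℂ) 1, ∑ i, c i * F i x = 0 := by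
  obtain ⟨C, hC⟩ := zero_bound hr hc
  refine ⟨C, fun μ hμ k ι _ F hF hcard => ?_⟩
  classical
  let L : (ι → ℂ) →ₗ[ℂ] (Fin (C * (k + 1)) → ℂ) :=
    { toFun := fun c i => ∑ j, c j * iteratedDeriv i (F j) 0
      map_add' := fun c d => by
        funext i
        simp only [Pi.add_apply, add_mul, Finset.sum_add_distrib]
      map_smul' := fun a c => by
        funext i
        simp only [Pi.smul_apply, smul_eq_mul, RingHom.id_apply, Finset.mul_sum, mul_assoc] }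
  have hker : LinearMap.ker L ≠ ⊥ := by
    apply L.ker_ne_bot_of_finrank_lt
    rw [Module.finrank_fintype_fun_eq_card, Module.finrank_fintype_fun_eq_card, Fintype.card_fin]
    exact hcard
  obtain ⟨c, hc1, hc0⟩ := (Submodule.ne_bot_iff _).1 hker
  refine ⟨c, hc0, ?_⟩
  apply hC μ hμ k _ (Fo.sum Finset.univ F c fun i _ => hF i)
  intro i hi
  rw [iteratedDeriv_comb _ _ _ (fun j _ => (hF j).diff)]
  exact congrFun (LinearMap.mem_ker.1 hc1) ⟨i, hi⟩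

end Pool.Agent.Lib.MP_5d4057_al.TR
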