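import Pool.Agent.Lib.MP_5d4057_al.TR.SubB
import Pool.Agent.Lib.MP_5d4057_al.TR.Dim
import Pool.Agent.Lib.MP_5d4057_al.DR.Desc
import Pool.Agent.Lib.MP_5d4057_al.DR.Der

/-! # A relation with algebraic coefficients -/

set_option autoImplicit false

namespace Pool.Agent.Lib.MP_5d4057_al.TR

open Metric Filter Topology

variable {G : Type} [Group G] {r : G →* M2} {k : ℕ} {A : Submodule ℂ (ℂ → ℂ)}

/-- The space `A` is finite dimensional on the disc. -/
theorem exists_basis (hr : ∀ g, Uni (r g)) (hc : Cpt r) (hA : Inp r k A) :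
    ∃ (d : ℕ) (φ : Fin d → ℂ → ℂ), (∀ i, φ i ∈ A) ∧
      ∀ f ∈ A, ∃ u : Fin d → ℂ, ∀ x ∈ ball (0 : ℂ) 1, f x = ∑ i, u i * φ i x := by
  classical
  obtain ⟨C, hC⟩ := dep hr hc
  let ρ : (ℂ → ℂ) →ₗ[ℂ] (ball (0 : ℂ) 1 → ℂ) :=
    { toFun := fun f x => f x
      map_add' := fun _ _ => rfl
      map_smul' := fun _ _ => rfl }
  have hrank : Module.rank ℂ (A.map ρ) ≤ (C * (k + 1) : ℕ) := by
    refine rank_le fun s hs => ?_
    by_contra hcon
    push Not at hcon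
    have h1 : ∀ i : s, ∃ f ∈ A, ρ f = (i : A.map ρ) := fun i => i.1.2
    choose F hF hF' using h1
    obtain ⟨c, hc0, hc1⟩ := hC (fun _ => 1) (fun _ => by simp) k s F
      (fun i => hA.form _ (hF i)) (by simpa using hcon)
    apply hc0
    rw [Fintype.linearIndependent_iff] at hs
    funext i
    refine hs c ?_ i
    apply Subtype.ext
    funext x
    have h2 := hc1 x x.2
    refine Eq.trans ?_ h2
    simp only [Submodule.coe_sum, Submodule.coe_smul, Finset.sum_apply, Pi.smul_apply,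
      smul_eq_mul]
    refine Finset.sum_congr rfl fun j _ => ?_
    rw [← hF' j]
    rfl
  have hfin : Module.Finite ℂ (A.map ρ) := by
    rw [← Module.rank_lt_aleph0_iff]
    exact lt_of_le_of_lt hrank (Cardinal.natCast_lt_aleph0)
  let b := Module.finBasis ℂ (A.map ρ)
  have h1 : ∀ i, ∃ f ∈ A, ρ f = (b i : ball (0 : ℂ) 1 → ℂ) := fun i => (b i).2
  choose φ hφ hφ' using h1
  refine ⟨_, φ, hφ, fun f hf => ?_⟩
  refine ⟨b.repr ⟨ρ f, f, hf, rfl⟩, fun x hx => ?_⟩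
  have h2 := b.sum_repr ⟨ρ f, f, hf, rfl⟩
  have h3 := congrArg (fun w : A.map ρ => (w : ball (0 : ℂ) 1 → ℂ) ⟨x, hx⟩) h2
  simp only [Submodule.coe_sum, Submodule.coe_smul, Finset.sum_apply, Pi.smul_apply,
      smul_eq_mul] at h3
  change _ = f x at h3
  rw [← h3]
  refine Finset.sum_congr rfl fun j _ => ?_
  rw [← hφ' j]
  rfl

section

variable {d : ℕ} (φ : Fin d → ℂ → ℂ)

/-- Linear combinations. -/
def lc (u : Fin d → ℂ) (x : ℂ) : ℂ := ∑ i, u i * φ i x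

theorem lc_mem (hφ : ∀ i, φ i ∈ A) (u : Fin d → ℂ) : lc φ u ∈ A := by
  have h1 : lc φ u = ∑ i, u i • φ i := by
    funext x
    simp [lc]
  rw [h1]
  exact Submodule.sum_mem _ fun i _ => A.smul_mem _ (hφ i)

theorem lc_line (u v : Fin d → ℂ) (e : ℂ) :
    lc φ (u + e • v) = fun y => lc φ u y + e * lc φ v y := by
  funext y
  simp only [lc, Pi.add_apply, Pi.smul_apply, smul_eq_mul]
  rw [Finset.mul_sum, ← Finset.sum_add_distrib]
  refine Finset.sum_congr rfl fun i _ => ?_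
  ring

theorem diff_lc (hφ : ∀ i, DifferentiableOn ℂ (φ i) (ball 0 1)) (u : Fin d → ℂ) :
    DifferentiableOn ℂ (lc φ u) (ball 0 1) := by
  unfold lc
  fun_prop

theorem deriv_lc (hφ : ∀ i, DifferentiableOn ℂ (φ i) (ball 0 1)) (u : Fin d → ℂ) {x : ℂ}
    (hx : x ∈ ball (0 : ℂ) 1) : deriv (lc φ u) x = lc (fun i => deriv (φ i)) u x := by
  have h1 : HasDerivAt (fun x => ∑ i, u i * φ i x) (∑ i, u i * deriv (φ i) x) x :=
    HasDerivAt.fun_sum fun i _ =>
      (((hφ i).differentiableAt (isOpen_ball.mem_nhds hx)).hasDerivAt).const_mul (u i)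
  exact h1.deriv

/-- The Wronskian of two combinations. -/
theorem Wr_lc (hφ : ∀ i, DifferentiableOn ℂ (φ i) (ball 0 1)) (u v : Fin d → ℂ) {x : ℂ}
    (hx : x ∈ ball (0 : ℂ) 1) : Wr (lc φ u) (lc φ v) x =
      lc φ u x * lc (fun i => deriv (φ i)) v x - lc (fun i => deriv (φ i)) u x * lc φ v x := by
  rw [Wr, deriv_lc φ hφ u hx, deriv_lc φ hφ v hx]

theorem deriv_Wr_lc (hφ : ∀ i, DifferentiableOn ℂ (φ i) (ball 0 1)) (u v : Fin d → ℂ) {x : ℂ}
    (hx : x ∈ ball (0 : ℂ) 1) : deriv (Wr (lc φ u) (lc φ v)) x =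
      lc φ u x * lc (fun i => deriv (deriv (φ i))) v x -
        lc (fun i => deriv (deriv (φ i))) u x * lc φ v x := by
  have hn := isOpen_ball.mem_nhds hx
  have hφ' : ∀ i, DifferentiableOn ℂ (deriv (φ i)) (ball 0 1) := fun i => (hφ i).deriv isOpen_ball
  have h1 : Wr (lc φ u) (lc φ v) =ᶠ[𝓝 x] fun y => lc φ u y * lc (fun i => deriv (φ i)) v y -
      lc (fun i => deriv (φ i)) u y * lc φ v y := by
    filter_upwards [hn] with y hy
    exact Wr_lc φ hφ u v hy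
  rw [h1.deriv_eq]
  have a1 := ((diff_lc φ hφ u).differentiableAt hn).hasDerivAt
  have a2 := ((diff_lc _ hφ' v).differentiableAt hn).hasDerivAt
  have a3 := ((diff_lc _ hφ' u).differentiableAt hn).hasDerivAt
  have a4 := ((diff_lc φ hφ v).differentiableAt hn).hasDerivAt
  have h2 := ((a1.fun_mul a2).fun_sub (a3.fun_mul a4)).deriv
  rw [h2, deriv_lc φ hφ u hx, deriv_lc φ hφ v hx, deriv_lc _ hφ' u hx, deriv_lc _ hφ' v hx]
  ring

/-- The monomials depend smoothly on the parameters. -/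
theorem contDiff_mon (hφ : ∀ i, DifferentiableOn ℂ (φ i) (ball 0 1)) {N : ℕ}
    (s : Fin (N + 1) × Fin (N + 1)) {x : ℂ} (hx : x ∈ ball (0 : ℂ) 1) :
    ContDiff ℂ 1 (fun z : (Fin d → ℂ) × (Fin d → ℂ) => mon k N (lc φ z.1) (lc φ z.2) s x) := by
  have h1 : (fun z : (Fin d → ℂ) × (Fin d → ℂ) => mon k N (lc φ z.1) (lc φ z.2) s x) =
      fun z => lc φ z.2 x ^ (s.1 : ℕ) * lc φ z.1 x ^ (N - s.1) *
        ((k * lc φ z.1 x * (lc φ z.1 x * lc (fun i => deriv (deriv (φ i))) z.2 x -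
        lc (fun i => deriv (deriv (φ i))) z.1 x * lc φ z.2 x) - (2 * k + 2) *
        lc (fun i => deriv (φ i)) z.1 x * (lc φ z.1 x * lc (fun i => deriv (φ i)) z.2 x -
        lc (fun i => deriv (φ i)) z.1 x * lc φ z.2 x)) * lc φ z.1 x) ^ (s.2 : ℕ) *
        ((lc φ z.1 x * lc (fun i => deriv (φ i)) z.2 x -
        lc (fun i => deriv (φ i)) z.1 x * lc φ z.2 x) ^ 2) ^ (N - s.2) := by
    funext z
    rw [mon, Vr, Wr_lc φ hφ _ _ hx, deriv_Wr_lc φ hφ _ _ hx, deriv_lc φ hφ _ hx]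
  rw [h1]
  unfold lc
  fun_prop

end

/-- The relations are stable under derivations. -/
theorem der_rel {N : ℕ} {f h f₁ h₁ : ℂ → ℂ} (hf : DifferentiableOn ℂ f (ball 0 1))
    (hh : DifferentiableOn ℂ h (ball 0 1)) (hf₁ : DifferentiableOn ℂ f₁ (ball 0 1))
    (hh₁ : DifferentiableOn ℂ h₁ (ball 0 1)) (D : Derivation ℤ ℂ ℂ) {Q : PowerSeries ℂ}
    (hQ : dX (dX (dX Q)) = 0)
    (ef : 2 * (Dh D (Ty f) - Q * dX (Ty f)) = 2 * Ty f₁ + k * dX Q * Ty f)
    (eh : 2 * (Dh D (Ty h) - Q * dX (Ty h)) = 2 * Ty h₁ + k * dX Q * Ty h)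
    {c : Fin (N + 1) × Fin (N + 1) → ℂ}
    (hc : ∀ x ∈ ball (0 : ℂ) 1, ∑ s, c s * mon k N f h s x = 0) :
    ∀ x ∈ ball (0 : ℂ) 1, ∑ s, D (c s) * mon k N f h s x +
      ∑ s, c s * dmon k N f h f₁ h₁ s.1 s.2 x = 0 := by
  classical
  -- the derivation `E = D - Q d/dX`
  let E : Dv (PowerSeries ℂ) :=
    { f := fun x => Dh D x - Q * dX x
      add := by
        intro x y
        rw [(Dh D).add, dX.add]
        ring
      mul := by
        intro x y
        rw [(Dh D).mul, dX.mul]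
        ring }
  have hE : ∀ x, E (dX x) = dX (E x) + dX Q * dX x := by
    intro x
    have h1 : dX (Dh D x - Q * dX x) = dX (Dh D x) - dX (Q * dX x) := by
      have h2 := dX.add (Dh D x - Q * dX x) (Q * dX x)
      rw [sub_add_cancel] at h2
      rw [h2]
      ring
    change Dh D (dX x) - Q * dX (dX x) = dX (Dh D x - Q * dX x) + dX Q * dX x
    rw [h1, Dh_dX, dX.mul]
    ring
  have hC : ∀ a : ℂ, E (PowerSeries.C a) = PowerSeries.C (D a) := by
    intro a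
    have h1 : dX (PowerSeries.C a) = 0 := by
      rw [dX_eq]
      exact PowerSeries.derivative_C
    have h2 : Dh D (PowerSeries.C a) = PowerSeries.C (D a) := by
      ext l
      rw [coeff_Dh, PowerSeries.coeff_C, PowerSeries.coeff_C]
      split_ifs with h
      · rfl
      · exact map_zero D
    change Dh D (PowerSeries.C a) - Q * dX (PowerSeries.C a) = _
    rw [h1, h2, mul_zero, sub_zero]
  have hE0 : E 0 = 0 := by
    have h1 := E.add 0 0
    rw [add_zero] at h1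
    exact left_eq_add.1 h1
  have hEs : ∀ (S : Finset (Fin (N + 1) × Fin (N + 1)))
      (g : Fin (N + 1) × Fin (N + 1) → PowerSeries ℂ), E (∑ s ∈ S, g s) = ∑ s ∈ S, E (g s) := by
    intro S g
    induction S using Finset.induction_on with
    | empty => simpa using hE0
    | insert a S ha ih => rw [Finset.sum_insert ha, Finset.sum_insert ha, E.add, ih]
  have tf := IsT.of hf
  have th := IsT.of hh
  have tf₁ := IsT.of hf₁
  have th₁ := IsT.of hh₁
  set M : Fin (N + 1) × Fin (N + 1) → PowerSeries ℂ := fun s => mn dX k N (Ty f) (Ty h) s.1 s.2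
  set M' : Fin (N + 1) × Fin (N + 1) → PowerSeries ℂ := fun s =>
    dmn dX k N (Ty f) (Ty h) (Ty f₁) (Ty h₁) s.1 s.2
  have tsum : ∀ (a : Fin (N + 1) × Fin (N + 1) → ℂ)
      (g : Fin (N + 1) × Fin (N + 1) → ℂ → ℂ) (Γ : Fin (N + 1) × Fin (N + 1) → PowerSeries ℂ)
      (S : Finset (Fin (N + 1) × Fin (N + 1))), (∀ s, IsT (g s) (Γ s)) →
      IsT (fun x => ∑ s ∈ S, a s * g s x) (∑ s ∈ S, PowerSeries.C (a s) * Γ s) := by
    intro a g Γ S hg
    induction S using Finset.induction_on with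
    | empty =>
      simp only [Finset.sum_empty]
      have := IsT.const 0
      rwa [map_zero] at this
    | insert b S hb ih =>
      simp only [Finset.sum_insert hb]
      exact ((IsT.const _).mul (hg b)).add ih
  have h0 : ∑ s, PowerSeries.C (c s) * M s = 0 := by
    have h1 := tsum c (fun s => mon k N f h s) M Finset.univ (fun s => tf.mon th s)
    rw [← h1.ty]
    have h2 : (fun x => ∑ s, c s * mon k N f h s x) =ᶠ[𝓝 0] fun _ => (0 : ℂ) := by
      filter_upwards [isOpen_ball.mem_nhds (mem_ball_self one_pos)] with x hx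
      exact hc x hx
    rw [Ty_congr h2, Ty_const, map_zero]
  have hmn : ∀ s, 2 * E (M s) = 2 * M' s + (N * (5 * k + 4) : ℕ) * dX Q * M s := fun s =>
    E_mn hE hQ ef eh (Nat.le_of_lt_succ s.1.2) (Nat.le_of_lt_succ s.2.2)
  have h3 : 2 * (∑ s, PowerSeries.C (D (c s)) * M s + ∑ s, PowerSeries.C (c s) * M' s) = 0 := by
    have h4 : 2 * E (∑ s, PowerSeries.C (c s) * M s) = 0 := by
      rw [h0, hE0, mul_zero]
    rw [hEs] at h4
    simp only [E.mul, hC] at h4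
    rw [Finset.sum_add_distrib, mul_add, Finset.mul_sum] at h4
    rw [mul_add, Finset.mul_sum, ← h4]
    have h5 : 2 * ∑ s, PowerSeries.C (c s) * E (M s) = 2 * ∑ s, PowerSeries.C (c s) * M' s := by
      rw [Finset.mul_sum, Finset.mul_sum]
      have h6 : ∑ s, 2 * (PowerSeries.C (c s) * E (M s)) =
          ∑ s, 2 * (PowerSeries.C (c s) * M' s) + (N * (5 * k + 4) : ℕ) * dX Q *
          ∑ s, PowerSeries.C (c s) * M s := by
        rw [Finset.mul_sum, ← Finset.sum_add_distrib]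
        refine Finset.sum_congr rfl fun s _ => ?_
        linear_combination PowerSeries.C (c s) * hmn s
      rw [h6, h0, mul_zero, add_zero]
    rw [← h5, Finset.mul_sum]
  have h7 : ∑ s, PowerSeries.C (D (c s)) * M s + ∑ s, PowerSeries.C (c s) * M' s = 0 := by
    rcases mul_eq_zero.1 h3 with h | h
    · exfalso
      have h8 := congrArg (PowerSeries.constantCoeff (R := ℂ)) h
      have h9 : (PowerSeries.constantCoeff (R := ℂ)) 2 = 2 := map_ofNat _ 2
      rw [h9, map_zero] at h8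
      norm_num at h8
    · exact h
  have h8 := (tsum (fun s => D (c s)) (fun s => mon k N f h s) M Finset.univ
    (fun s => tf.mon th s)).add (tsum c (fun s => dmon k N f h f₁ h₁ s.1 s.2) M' Finset.univ
    (fun s => tf.dmon th tf₁ th₁ s.1 s.2))
  exact Ty_inj h8.diff (h8.ty.trans h7)

/-- **The relation.** -/
theorem exists_rel (hr : ∀ g, Uni (r g)) (hc : Cpt r) (hk : 0 < k) (hA : Inp r k A) :
    ∃ N : ℕ, ∃ f ∈ A, ∃ h ∈ A, (∃ x ∈ ball (0 : ℂ) 1, Wr f h x ≠ 0) ∧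
      ∃ c : Fin (N + 1) × Fin (N + 1) → ℂ, c ≠ 0 ∧ (∀ s, IsAlgebraic ℚ (c s)) ∧
        ∀ x ∈ ball (0 : ℂ) 1, ∑ s, c s * mon k N f h s x = 0 := by
  classical
  obtain ⟨d, φ, hφA, hφ⟩ := exists_basis hr hc hA
  obtain ⟨C, hC⟩ := dep hr hc
  have hφd : ∀ i, DifferentiableOn ℂ (φ i) (ball 0 1) := fun i => (hA.form _ (hφA i)).diff
  obtain ⟨f₀, hf₀, h₀, hh₀, x₀, hx₀, hW₀⟩ := hA.two
  set N : ℕ := C * (5 * k + 4) + C with hN
  set Ω : Set ((Fin d → ℂ) × (Fin d → ℂ)) := {z | Wr (lc φ z.1) (lc φ z.2) x₀ ≠ 0} with hΩ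
  have hΩo : IsOpen Ω := by
    have h1 : Continuous fun z : (Fin d → ℂ) × (Fin d → ℂ) => Wr (lc φ z.1) (lc φ z.2) x₀ := by
      have h2 : (fun z : (Fin d → ℂ) × (Fin d → ℂ) => Wr (lc φ z.1) (lc φ z.2) x₀) =
          fun z => lc φ z.1 x₀ * lc (fun i => deriv (φ i)) z.2 x₀ -
            lc (fun i => deriv (φ i)) z.1 x₀ * lc φ z.2 x₀ := by
        funext z
        exact Wr_lc φ hφd _ _ hx₀
      rw [h2]
      unfold lc
      fun_prop
    exact isOpen_ne.preimage h1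
  have hne : Ω.Nonempty := by
    obtain ⟨u, hu⟩ := hφ f₀ hf₀
    obtain ⟨v, hv⟩ := hφ h₀ hh₀
    refine ⟨(u, v), ?_⟩
    have e1 : lc φ u =ᶠ[𝓝 x₀] f₀ := by
      filter_upwards [isOpen_ball.mem_nhds hx₀] with x hx
      exact (hu x hx).symm
    have e2 : lc φ v =ᶠ[𝓝 x₀] h₀ := by
      filter_upwards [isOpen_ball.mem_nhds hx₀] with x hx
      exact (hv x hx).symm
    change Wr (lc φ u) (lc φ v) x₀ ≠ 0
    have e3 : Wr (lc φ u) (lc φ v) x₀ = Wr f₀ h₀ x₀ := by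
      simp only [Wr]
      rw [e1.deriv_eq, e2.deriv_eq, e1.self_of_nhds, e2.self_of_nhds]
    rw [e3]
    exact hW₀
  have hlcA : ∀ u, lc φ u ∈ A := lc_mem φ hφA
  have hlcd : ∀ u, DifferentiableOn ℂ (lc φ u) (ball 0 1) := diff_lc φ hφd
  have hdep : ∀ z ∈ Ω, ∃ c : Fin (N + 1) × Fin (N + 1) → ℂ, c ≠ 0 ∧ ∀ x : ball (0 : ℂ) 1,
      ∑ s, c s * mon k N (lc φ z.1) (lc φ z.2) s x = 0 := by
    intro z _
    obtain ⟨c, hc0, hc1⟩ := hC (fun g => ((r g).det ^ (2 * N))⁻¹)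
      (fun g => by rw [norm_inv, norm_pow, norm_det (hr g), one_pow, inv_one])
      (N * (5 * k + 4)) (Fin (N + 1) × Fin (N + 1)) (fun s => mon k N (lc φ z.1) (lc φ z.2) s)
      (fun s => Fo.mon hr hk (hA.form _ (hlcA _)) (hA.form _ (hlcA _)) N s) (by
        rw [Fintype.card_prod, Fintype.card_fin]
        have h1 : C * (N * (5 * k + 4) + 1) ≤ N * (N + 1) := by
          have h2 : C * (5 * k + 4) ≤ N := by omega
          have h3 : C ≤ N := by omega
          calc C * (N * (5 * k + 4) + 1) = N * (C * (5 * k + 4)) + C := by ring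
            _ ≤ N * N + N := by gcongr
            _ = N * (N + 1) := by ring
        nlinarith)
    exact ⟨c, hc0, fun x => hc1 x x.2⟩
  have hD : ∀ D : Derivation ℤ ℂ ℂ, ∀ z ∈ Ω, ∃ ξ : (Fin d → ℂ) × (Fin d → ℂ),
      ∀ c : Fin (N + 1) × Fin (N + 1) → ℂ,
      (∀ x : ball (0 : ℂ) 1, ∑ s, c s * mon k N (lc φ z.1) (lc φ z.2) s x = 0) →
      ∀ x : ball (0 : ℂ) 1, ∑ s, D (c s) * mon k N (lc φ z.1) (lc φ z.2) s x +
        ∑ s, c s * fderiv ℂ (fun z : (Fin d → ℂ) × (Fin d → ℂ) =>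
          mon k N (lc φ z.1) (lc φ z.2) s x) z ξ = 0 := by
    intro D z _
    obtain ⟨Q, hQ, hQA⟩ := hA.ser D
    obtain ⟨f₁, hf₁, ef⟩ := hQA _ (hlcA z.1)
    obtain ⟨h₁, hh₁, eh⟩ := hQA _ (hlcA z.2)
    obtain ⟨u, hu⟩ := hφ f₁ hf₁
    obtain ⟨v, hv⟩ := hφ h₁ hh₁
    have hty : ∀ (g : ℂ → ℂ) (w : Fin d → ℂ), (∀ x ∈ ball (0 : ℂ) 1, g x = ∑ i, w i * φ i x) →
        Ty g = Ty (lc φ w) := by
      intro g w hg
      refine Ty_congr ?_
      filter_upwards [isOpen_ball.mem_nhds (mem_ball_self one_pos)] with x hx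
      exact hg x hx
    rw [hty f₁ u hu] at ef
    rw [hty h₁ v hv] at eh
    refine ⟨(u, v), fun c hcr x => ?_⟩
    have h1 := der_rel (hlcd z.1) (hlcd z.2) (hlcd u) (hlcd v) D hQ ef eh
      (fun x hx => hcr ⟨x, hx⟩) x x.2
    refine Eq.trans ?_ h1
    congr 1
    refine Finset.sum_congr rfl fun s _ => ?_
    congr 1
    have h2 := (contDiff_mon (k := k) φ hφd s x.2).differentiable (by norm_num)
    have h3 := (h2 z).hasFDerivAt.hasLineDerivAt (u, v)
    have h4 : HasDerivAt (fun e : ℂ => mon k N (lc φ (z + e • (u, v)).1)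
        (lc φ (z + e • (u, v)).2) s x) (dmon k N (lc φ z.1) (lc φ z.2) (lc φ u) (lc φ v)
        s.1 s.2 x) 0 := by
      have h5 := hasDerivAt_mon (k := k) (hlcd z.1) (hlcd z.2) (hlcd u) (hlcd v) s x.2
      simp only [← lc_line] at h5
      exact h5
    exact HasDerivAt.unique h3 h4
  obtain ⟨z, hz, c, hc0, hca, hcr⟩ := DR.desc (fun c h => DR.alg_of_der h)
    (fun D c h => DR.der_alg D h) hΩo hne
    (fun (s : Fin (N + 1) × Fin (N + 1)) z (x : ball (0 : ℂ) 1) =>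
      mon k N (lc φ z.1) (lc φ z.2) s x)
    (fun s x => (contDiff_mon φ hφd s x.2).contDiffOn) hdep hD
  exact ⟨N, lc φ z.1, hlcA _, lc φ z.2, hlcA _, ⟨x₀, hx₀, hz⟩, c, hc0, hca,
    fun x hx => hcr ⟨x, hx⟩⟩

end Pool.Agent.Lib.MP_5d4057_al.TR
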