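import Pool.Agent.Lib.MP_5d4057_al.TR.FinA
import Pool.Agent.Lib.MP_5d4057_al.TR.Sub
import Pool.Agent.Lib.MP_5d4057_al.TR.Grow
import Pool.Agent.Lib.MP_5d4057_al.T5.Main

/-! # Project DER, parts S1 and T5 together: the determinant has finite order -/

set_option autoImplicit false

namespace Pool.Agent.Lib.MP_5d4057_al.TR

open Metric Filter Topology Matrix Pool.Agent.Lib.MP_5d4057_al Pool.Agent.Lib.MP_5d4057_al.HM
  Pool.Agent.Lib.MP_5d4057_al.T5

variable {G : Type} [Group G] {r : G →* M2} {k : ℕ}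

/-- Scalars in the image act by `1` on forms. -/
theorem scal {f : ℂ → ℂ} (hf : Fo r (fun _ => 1) k f) {x : ℂ} (hx : x ∈ ball (0 : ℂ) 1)
    (hfx : f x ≠ 0) {s : SUGroup 1} {g g' : G} {c c' : ℂ} (hc : ‖c‖ = 1) (hc' : ‖c'‖ = 1)
    (h : r g = c • s.toMatrix) (h' : r g' = c' • s.toMatrix) : c ^ k = c' ^ k := by
  have h1 := hf.inv g x hx
  have h2 := hf.inv g' x hx
  rw [h, mo_smul (ne_of_norm hc)] at h1
  rw [h', mo_smul (ne_of_norm hc')] at h2
  have e : ∀ c : ℂ, jf (c • s.toMatrix) x = c * jf s.toMatrix x := by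
    intro c
    simp only [jf, Matrix.smul_apply, smul_eq_mul]
    ring
  rw [e, one_mul, mul_pow] at h1 h2
  have h3 : c ^ k * (jf s.toMatrix x ^ k * f x) = c' ^ k * (jf s.toMatrix x ^ k * f x) := by
    rw [← mul_assoc, ← mul_assoc, ← h1, ← h2]
  exact mul_right_cancel₀ (mul_ne_zero (pow_ne_zero _ (jf_ne (uni_su s) hx)) hfx) h3

/-- The character of the image. -/
theorem exists_mu {f : ℂ → ℂ} (hf : Fo r (fun _ => 1) k f) {x : ℂ} (hx : x ∈ ball (0 : ℂ) 1)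
    (hfx : f x ≠ 0) : ∃ μ : GG r →* ℂ, ∀ (s : GG r) (g : G) (c : ℂ), ‖c‖ = 1 →
      r g = c • (s : SUGroup 1).toMatrix → μ s = c ^ (2 * k) := by
  classical
  choose g c hc h using fun s : GG r => s.2
  have key : ∀ (s : GG r) (g' : G) (c' : ℂ), ‖c'‖ = 1 →
      r g' = c' • (s : SUGroup 1).toMatrix → c s ^ (2 * k) = c' ^ (2 * k) := by
    intro s g' c' hc' h'
    rw [mul_comm, pow_mul, pow_mul, scal hf hx hfx (hc s) hc' (h s) h']
  refine ⟨{ toFun := fun s => c s ^ (2 * k), map_one' := ?_, map_mul' := ?_ }, ?_⟩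
  · have h1 : r 1 = (1 : ℂ) • ((1 : GG r) : SUGroup 1).toMatrix := by
      rw [map_one, one_smul]
      rfl
    rw [key 1 1 1 norm_one h1, one_pow]
  · intro s t
    have h1 : r (g s * g t) = (c s * c t) • ((s * t : GG r) : SUGroup 1).toMatrix := by
      have h2 : ((s * t : GG r) : SUGroup 1).toMatrix =
          (s : SUGroup 1).toMatrix * (t : SUGroup 1).toMatrix := rfl
      rw [map_mul, h s, h t, h2, Matrix.smul_mul, Matrix.mul_smul, smul_smul]
    rw [key (s * t) _ _ (by rw [norm_mul, hc, hc, one_mul]) h1, mul_pow]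
  · intro s g' c' hc' h'
    exact key s g' c' hc' h'

theorem pg_of {f : ℂ → ℂ} (hf : DifferentiableOn ℂ f (ball 0 1)) (hg : Gro f) : PG f := by
  obtain ⟨C, N, hC, h⟩ := hg
  refine ⟨hf, C, N, fun x hx => ?_⟩
  have hx1 : 0 < (1 - ‖x‖) ^ N := pow_pos (sub_pos.2 (by simpa using hx)) N
  have h1 := h x hx
  rw [← div_eq_mul_inv, le_div_iff₀ hx1] at h1
  exact h1

/-- The logarithmic derivative. -/
theorem lg_eq {f h : ℂ → ℂ} (hf : DifferentiableOn ℂ f (ball 0 1))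
    (hh : DifferentiableOn ℂ h (ball 0 1)) (hk : 0 < k) {x : ℂ} (hx : x ∈ ball (0 : ℂ) 1)
    (f0 : f x ≠ 0) (W0 : Wr f h x ≠ 0) :
    lg h f (fun x => f x ^ (2 * k + 2)) (fun x => Wr f h x ^ k) x =
      -(Vr k f h x * f x / Wr f h x ^ 2) := by
  have hn := isOpen_ball.mem_nhds hx
  obtain ⟨m, rfl⟩ : ∃ m, k = m + 1 := ⟨k - 1, by omega⟩
  have d1 : deriv (fun x => f x ^ (2 * (m + 1) + 2)) x =
      ((2 * (m + 1) + 2 : ℕ) : ℂ) * f x ^ (2 * m + 3) * deriv f x := by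
    have := ((hf.differentiableAt hn).hasDerivAt.fun_pow (2 * (m + 1) + 2)).deriv
    rw [this]
    rfl
  have d2 : deriv (fun x => Wr f h x ^ (m + 1)) x =
      ((m + 1 : ℕ) : ℂ) * Wr f h x ^ m * deriv (Wr f h) x := by
    have := (((diff_Wr hf hh).differentiableAt hn).hasDerivAt.fun_pow (m + 1)).deriv
    rw [this]
    rfl
  have d3 : deriv h x * f x - h x * deriv f x = Wr f h x := by
    rw [Wr]
    ring
  rw [lg, d1, d2, d3, Vr]
  field_simp
  push_cast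
  ring

/-- **S1 + T5.** -/
theorem main (hr : ∀ g, Uni (r g)) (hc : Cpt r)
    (hfin : ∀ R : ℝ, {M : M2 | (∃ g, M = r g) ∧ ‖M 1 1‖ ≤ R}.Finite)
    (hal : ∀ g, IsAlgebraic ℚ (r g).det) (hk : 0 < k) {A : Submodule ℂ (ℂ → ℂ)}
    (hA : Inp r k A) : ∃ N : ℕ, 0 < N ∧ ∀ g, (r g).det ^ N = 1 := by
  classical
  obtain ⟨N, f, hfA, h, hhA, ⟨x₀, hx₀, hW₀⟩, c, hc0, hca, hrel⟩ := exists_rel hr hc hk hA
  have ff := hA.form f hfA
  have fh := hA.form h hhA
  have fW := Fo.Wr hr hk ff fh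
  have hne : ∃ x ∈ ball (0 : ℂ) 1, f x ≠ 0 := by
    by_contra hcon
    push Not at hcon
    apply hW₀
    have h1 : f =ᶠ[𝓝 x₀] fun _ => (0 : ℂ) := by
      filter_upwards [isOpen_ball.mem_nhds hx₀] with x hx
      exact hcon x hx
    rw [Wr, h1.deriv_eq, hcon x₀ hx₀]
    simp
  obtain ⟨x₁, hx₁, hfx₁⟩ := hne
  obtain ⟨μ, hμ⟩ := exists_mu ff hx₁ hfx₁
  have hdet : ∀ (s : SUGroup 1) (g : G) (c : ℂ), r g = c • s.toMatrix → (r g).det = c ^ 2 := by
    intro s g c hs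
    have h1 : s.toMatrix.det = 1 := s.1.2
    rw [hs, Matrix.det_smul, Fintype.card_fin, h1, mul_one]
  have hone : ∀ g : G, ‖(1 : ℂ)‖ = 1 := fun _ => norm_one
  have gf : Gro f := ff.gro hr hc hone
  have gh : Gro h := fh.gro hr hc hone
  have gW : Gro (Wr f h) := fW.gro hr hc fun g => by rw [norm_inv, norm_det (hr g), inv_one]
  have hfin' := finite_order (coc_GG hr hc hfin) (a := h) (b := f)
    (y₁ := fun x => f x ^ (2 * k + 2)) (y₂ := fun x => Wr f h x ^ k)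
    (pg_of fh.diff gh) (pg_of ff.diff gf) (pg_of (ff.diff.fun_pow _) (gf.pow _))
    (pg_of (fW.diff.fun_pow _) (gW.pow _)) ⟨x₁, hx₁, hfx₁⟩ ⟨x₁, hx₁, pow_ne_zero _ hfx₁⟩
    ⟨x₀, hx₀, pow_ne_zero _ hW₀⟩ ?_ ?_ μ ?_ ?_ ?_ (d := N + 1)
    (fun i j => if h : i < N + 1 ∧ j < N + 1 then c (⟨i, h.1⟩, ⟨j, h.2⟩) * (-1) ^ j else 0)
    ?_ ?_ ?_
  · obtain ⟨n, hn, hn'⟩ := hfin'
    refine ⟨k * n, Nat.mul_pos hk hn, fun g => ?_⟩
    obtain ⟨s, c', hc', hcd, hs⟩ := exists_su (hr g)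
    have h1 := hn' ⟨s, g, c', hc', hs⟩
    rw [hμ _ g c' hc' hs, pow_mul c', hcd, ← pow_mul] at h1
    exact h1
  · rintro ⟨e, he⟩
    apply hW₀
    have h1 : h =ᶠ[𝓝 x₀] fun x => e * f x := by
      filter_upwards [isOpen_ball.mem_nhds hx₀] with x hx
      exact he x hx
    rw [Wr, h1.deriv_eq, he x₀ hx₀, deriv_const_mul_field]
    ring
  · rintro s ⟨g, c', hc', hs⟩ x hx
    have h1 := ff.inv g x hx
    have h2 := fh.inv g x hx
    rw [hs, mo_smul (ne_of_norm hc')] at h1 h2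
    rw [h1, h2]
    ring
  · intro s
    obtain ⟨g, c', hc', hs⟩ := s.2
    rw [hμ s g c' hc' hs, norm_pow, hc', one_pow]
  · intro s
    obtain ⟨g, c', hc', hs⟩ := s.2
    rw [hμ s g c' hc' hs, pow_mul, ← hdet s g c' hs]
    exact (hal g).pow k
  · intro s x hx
    obtain ⟨g, c', hc', hs⟩ := s.2
    have h1 := ff.inv g x hx
    have h2 := fW.inv g x hx
    have hd := hdet s g c' hs
    have hd0 : (r g).det ≠ 0 := by
      rw [hd]
      exact pow_ne_zero 2 (ne_of_norm hc')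
    have hj := jf_ne (hr g) hx
    rw [hμ s g c' hc' hs, pow_mul, ← hd]
    rw [hs, mo_smul (ne_of_norm hc'), ← hs] at h1 h2
    have e : (r g).det ^ k * ((r g).det)⁻¹ ^ k = 1 := by
      rw [← mul_pow, mul_inv_cancel₀ hd0, one_pow]
    rw [h1, h2]
    linear_combination (-(jf (r g) x ^ (k * (2 * k + 2)) * f x ^ (2 * k + 2) *
      Wr f h x ^ k)) * e
  · intro i j
    split_ifs with hij
    · exact (hca _).mul (((isAlgebraic_one).neg).pow j)
    · exact isAlgebraic_zero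
  · obtain ⟨s, hs⟩ := Function.ne_iff.1 hc0
    refine ⟨s.1, s.1.2, s.2, s.2.2, ?_⟩
    rw [dif_pos ⟨s.1.2, s.2.2⟩]
    exact mul_ne_zero hs (pow_ne_zero _ (by norm_num))
  · intro x hx f0 _ W0' _
    have W0 : Wr f h x ≠ 0 := fun hw => W0' (by simp only [hw]; exact zero_pow hk.ne')
    have h1 := hrel x hx
    rw [lg_eq ff.diff fh.diff hk hx f0 W0]
    have h2 : ∑ i ∈ Finset.range (N + 1), ∑ j ∈ Finset.range (N + 1),
        (if h : i < N + 1 ∧ j < N + 1 then c (⟨i, h.1⟩, ⟨j, h.2⟩) * (-1) ^ j else 0) *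
          (h x / f x) ^ i * (-(Vr k f h x * f x / Wr f h x ^ 2)) ^ j =
        (∑ s, c s * mon k N f h s x) / (f x ^ N * (Wr f h x ^ 2) ^ N) := by
      rw [Finset.sum_range, Fintype.sum_prod_type, Finset.sum_div]
      refine Finset.sum_congr rfl fun i _ => ?_
      rw [Finset.sum_range, Finset.sum_div]
      refine Finset.sum_congr rfl fun j _ => ?_
      rw [dif_pos ⟨i.2, j.2⟩, mon]
      have e1 : f x ^ N = f x ^ (N - i) * f x ^ (i : ℕ) := by
        rw [← pow_add, Nat.sub_add_cancel (Nat.le_of_lt_succ i.2)]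
      have e2 : (Wr f h x ^ 2) ^ N = (Wr f h x ^ 2) ^ (N - j) * (Wr f h x ^ 2) ^ (j : ℕ) := by
        rw [← pow_add, Nat.sub_add_cancel (Nat.le_of_lt_succ j.2)]
      have e3 : (-(Vr k f h x * f x / Wr f h x ^ 2)) ^ (j : ℕ) =
          (-1) ^ (j : ℕ) * ((Vr k f h x * f x) ^ (j : ℕ) / (Wr f h x ^ 2) ^ (j : ℕ)) := by
        rw [neg_pow, div_pow]
      have e4 : ((-1 : ℂ)) ^ (j : ℕ) * (-1) ^ (j : ℕ) = 1 := by
        rw [← mul_pow]
        norm_num
      rw [e1, e2, e3, div_pow]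
      have n1 : f x ^ (N - i) ≠ 0 := pow_ne_zero _ f0
      have n2 : f x ^ (i : ℕ) ≠ 0 := pow_ne_zero _ f0
      have n3 : (Wr f h x ^ 2) ^ (N - j) ≠ 0 := pow_ne_zero _ (pow_ne_zero _ W0)
      have n4 : (Wr f h x ^ 2) ^ (j : ℕ) ≠ 0 := pow_ne_zero _ (pow_ne_zero _ W0)
      rw [eq_div_iff (mul_ne_zero (mul_ne_zero n1 n2) (mul_ne_zero n3 n4))]
      generalize (Wr f h x ^ 2) ^ (j : ℕ) = a4 at *
      generalize (Wr f h x ^ 2) ^ (N - j) = a3 at *
      generalize (Vr k f h x * f x) ^ (j : ℕ) = a5 at *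
      generalize f x ^ (i : ℕ) = a2 at *
      generalize f x ^ (N - i) = a1 at *
      generalize h x ^ (i : ℕ) = a6 at *
      generalize ((-1 : ℂ)) ^ (j : ℕ) = a7 at *
      field_simp
      linear_combination (c (i, j) * a6 * a5) * e4
    rw [h2, h1, zero_div]

end Pool.Agent.Lib.MP_5d4057_al.TR
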