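import Mathlib

/-! # The action of a derivation on Wronskians and brackets (pure algebra) -/

set_option autoImplicit false

namespace Pool.Agent.Lib.MP_5d4057_al.TR

/-- Additive maps with the Leibniz rule. -/
structure Dv (R : Type) [CommRing R] where
  /-- the map -/
  f : R → R
  add : ∀ x y, f (x + y) = f x + f y
  mul : ∀ x y, f (x * y) = f x * y + x * f y

instance {R : Type} [CommRing R] : CoeFun (Dv R) (fun _ => R → R) := ⟨Dv.f⟩

variable {R : Type} [CommRing R]

/-- The Wronskian. -/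
def wr (d : Dv R) (f h : R) : R := f * d h - d f * h

/-- The bracket `k f W' - (2 k + 2) f' W`. -/
def vr (d : Dv R) (k : ℕ) (f h : R) : R :=
  k * f * d (wr d f h) - (2 * k + 2) * d f * wr d f h

/-- The derivative of the Wronskian in the direction `(f₁, h₁)`. -/
def dwr (d : Dv R) (f h f₁ h₁ : R) : R := wr d f₁ h + wr d f h₁

/-- The derivative of the bracket in the direction `(f₁, h₁)`. -/
def dvr (d : Dv R) (k : ℕ) (f h f₁ h₁ : R) : R :=
  k * f₁ * d (wr d f h) + k * f * d (dwr d f h f₁ h₁) - (2 * k + 2) * d f₁ * wr d f h -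
    (2 * k + 2) * d f * dwr d f h f₁ h₁

/-- The monomial. -/
def mn (d : Dv R) (k N : ℕ) (f h : R) (i j : ℕ) : R :=
  h ^ i * f ^ (N - i) * (vr d k f h * f) ^ j * (wr d f h ^ 2) ^ (N - j)

/-- The derivative of the monomial in the direction `(f₁, h₁)`. -/
def dmn (d : Dv R) (k N : ℕ) (f h f₁ h₁ : R) (i j : ℕ) : R :=
  i * h ^ (i - 1) * h₁ * f ^ (N - i) * (vr d k f h * f) ^ j * (wr d f h ^ 2) ^ (N - j) +
  h ^ i * ((N - i : ℕ) * f ^ (N - i - 1) * f₁) * (vr d k f h * f) ^ j *
    (wr d f h ^ 2) ^ (N - j) +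
  h ^ i * f ^ (N - i) * (j * (vr d k f h * f) ^ (j - 1) *
    (dvr d k f h f₁ h₁ * f + vr d k f h * f₁)) * (wr d f h ^ 2) ^ (N - j) +
  h ^ i * f ^ (N - i) * (vr d k f h * f) ^ j * ((N - j : ℕ) * (wr d f h ^ 2) ^ (N - j - 1) *
    (2 * wr d f h * dwr d f h f₁ h₁))

variable {d E : Dv R} {p f h f₁ h₁ : R} {k : ℕ}

theorem d_zero (d : Dv R) : d 0 = 0 := by
  have h := d.add 0 0
  rw [add_zero] at h
  exact left_eq_add.1 h

theorem d_one (d : Dv R) : d 1 = 0 := by
  have h := d.mul 1 1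
  rw [mul_one, mul_one, one_mul] at h
  exact left_eq_add.1 h

theorem d_sub (d : Dv R) (x y : R) : d (x - y) = d x - d y := by
  have h := d.add (x - y) y
  rw [sub_add_cancel] at h
  rw [h]
  ring

theorem d_two (d : Dv R) (x : R) : d (2 * x) = 2 * d x := by
  rw [two_mul, d.add, two_mul]

theorem d_nat (d : Dv R) (n : ℕ) (x : R) : d ((n : R) * x) = (n : R) * d x := by
  induction n with
  | zero => rw [Nat.cast_zero, zero_mul, zero_mul, d_zero]
  | succ n ih => rw [Nat.cast_succ, add_mul, d.add, ih, one_mul, add_mul, one_mul]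

theorem d_pow (d : Dv R) (x : R) (n : ℕ) : d (x ^ (n + 1)) = ((n : R) + 1) * x ^ n * d x := by
  induction n with
  | zero => rw [zero_add, pow_one, pow_zero, Nat.cast_zero]; ring
  | succ n ih =>
    rw [pow_succ, d.mul, ih]
    push_cast
    ring

/-- The derivative of an element with a weight. -/
theorem d_form {x x₁ : R} {n : ℕ} (hx : 2 * E x = 2 * x₁ + n * p * x) :
    2 * d (E x) = 2 * d x₁ + n * (d p * x + p * d x) := by
  have h : d (2 * E x) = d (2 * x₁ + n * p * x) := by rw [hx]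
  rw [d.add, d_two, d_two, mul_assoc, d_nat, d.mul] at h
  exact h

theorem E_mul {x y x₁ y₁ v w : R} (hx : 2 * E x = 2 * x₁ + v * p * x)
    (hy : 2 * E y = 2 * y₁ + w * p * y) :
    2 * E (x * y) = 2 * (x₁ * y + x * y₁) + (v + w) * p * (x * y) := by
  rw [E.mul]
  linear_combination y * hx + x * hy

theorem E_pow {x x₁ v : R} (hx : 2 * E x = 2 * x₁ + v * p * x) (n : ℕ) :
    2 * E (x ^ n) = 2 * (n * x ^ (n - 1) * x₁) + n * v * p * x ^ n := by
  rcases n with _ | n
  · simp [d_one]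
  · rw [d_pow, Nat.add_sub_cancel, pow_succ]
    push_cast
    linear_combination (((n : R) + 1) * x ^ n) * hx

/-- Everything is multiplied by `2` to avoid the half. -/
theorem E_wr (hE : ∀ x, E (d x) = d (E x) + p * d x) (hf : 2 * E f = 2 * f₁ + k * p * f)
    (hh : 2 * E h = 2 * h₁ + k * p * h) :
    2 * E (wr d f h) = 2 * dwr d f h f₁ h₁ + (2 * k + 2) * p * wr d f h := by
  have a := d_form (d := d) hf
  have b := d_form (d := d) hh
  unfold dwr wr
  rw [d_sub, E.mul, E.mul, hE, hE]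
  linear_combination d h * hf - d f * hh + f * b - h * a

theorem E_vr (hE : ∀ x, E (d x) = d (E x) + p * d x) (hp : d (d p) = 0)
    (hf : 2 * E f = 2 * f₁ + k * p * f) (hh : 2 * E h = 2 * h₁ + k * p * h) :
    2 * E (vr d k f h) = 2 * dvr d k f h f₁ h₁ + (3 * k + 4) * p * vr d k f h := by
  have _ := hp
  have a := d_form (d := d) hf
  have w := E_wr hE hf hh
  have w' : 2 * E (wr d f h) = 2 * dwr d f h f₁ h₁ + ((2 * k + 2 : ℕ) : R) * p * wr d f h := by
    push_cast
    exact w
  have b := d_form (d := d) w'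
  push_cast at b
  unfold dvr vr
  have e : E (k * f * d (wr d f h) - (2 * k + 2) * d f * wr d f h) =
      k * (f * E (d (wr d f h)) + d (wr d f h) * E f) -
        (2 * k + 2) * (d f * E (wr d f h) + wr d f h * E (d f)) := by
    have e1 : E (k * f * d (wr d f h)) = k * (f * E (d (wr d f h)) + d (wr d f h) * E f) := by
      rw [mul_assoc, d_nat, E.mul]
      ring
    have e2 : E ((2 * k + 2) * d f * wr d f h) =
        (2 * k + 2) * (d f * E (wr d f h) + wr d f h * E (d f)) := by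
      have : ((2 : R) * k + 2) = ((2 * k + 2 : ℕ) : R) := by push_cast; ring
      rw [this, mul_assoc, d_nat, E.mul]
      ring
    rw [d_sub, e1, e2]
  rw [e, hE, hE]
  linear_combination (k : R) * f * b + (k : R) * d (wr d f h) * hf -
    (2 * (k : R) + 2) * d f * w - (2 * (k : R) + 2) * wr d f h * a

theorem E_mn (hE : ∀ x, E (d x) = d (E x) + p * d x) (hp : d (d p) = 0)
    (hf : 2 * E f = 2 * f₁ + k * p * f) (hh : 2 * E h = 2 * h₁ + k * p * h) {N i j : ℕ}
    (hi : i ≤ N) (hj : j ≤ N) :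
    2 * E (mn d k N f h i j) = 2 * dmn d k N f h f₁ h₁ i j +
      (N * (5 * k + 4) : ℕ) * p * mn d k N f h i j := by
  have w := E_wr hE hf hh
  have v := E_vr hE hp hf hh
  have a1 := E_pow hh i
  have a2 := E_pow hf (N - i)
  have a3 := E_pow (E_mul v hf) j
  have a4 := E_pow (E_pow w 2) (N - j)
  have a := E_mul (E_mul (E_mul a1 a2) a3) a4
  unfold mn dmn
  rw [a]
  push_cast [Nat.cast_sub hi, Nat.cast_sub hj]
  simp only [pow_one]
  ring

end Pool.Agent.Lib.MP_5d4057_al.TR
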