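import Pool.Agent.Lib.MP_5d4057_al.TR.Mob
import Pool.Agent.Lib.MP_5d4057_al.T5.MobA
import Pool.Agent.Lib.MP_5d4057_al.HM.Basic

/-! # From `U(1,1)` to `SU(1,1)` -/

set_option autoImplicit false

namespace Pool.Agent.Lib.MP_5d4057_al.TR

open Metric Filter Topology Matrix Pool.Agent.Lib.MP_5d4057_al Pool.Agent.Lib.MP_5d4057_al.HM
  Pool.Agent.Lib.MP_5d4057_al.T5

variable {G : Type} [Group G] {r : G →* M2}

theorem uni_iff (M : M2) : Uni M ↔ Mᴴ * J 1 * M = J 1 := by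
  have j00 : J 1 0 0 = 1 := by simp [J]
  have j11 : J 1 1 1 = -1 := by simp [J, Fin.last]
  have j01 : J 1 0 1 = 0 := by simp [J]
  have j10 : J 1 1 0 = 0 := by simp [J]
  have hs : ∀ f : Fin (1 + 1) → ℂ, ∑ j, f j = f 0 + f 1 := fun f => Fin.sum_univ_two f
  constructor
  · intro h
    have h0 : ((‖M 0 0‖ ^ 2 : ℝ) : ℂ) - ((‖M 1 0‖ ^ 2 : ℝ) : ℂ) = 1 := by
      exact_mod_cast h.h0
    have h1 : ((‖M 1 1‖ ^ 2 : ℝ) : ℂ) - ((‖M 0 1‖ ^ 2 : ℝ) : ℂ) = 1 := by
      exact_mod_cast h.h1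
    rw [star_mul_norm, star_mul_norm] at h0 h1
    have h2 := h.h2
    have h3 := congrArg star h2
    rw [star_mul', star_mul', star_star, star_star] at h3
    ext i j
    fin_cases i <;> fin_cases j <;>
      simp only [Matrix.mul_apply, hs, conjTranspose_apply, j00, j11, j01, j10, Fin.zero_eta,
        Fin.mk_one, Fin.isValue]
    · linear_combination h0
    · linear_combination h2
    · linear_combination h3
    · linear_combination -h1
  · intro h
    have h00 := congrFun (congrFun h 0) 0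
    have h01 := congrFun (congrFun h 0) 1
    have h11 := congrFun (congrFun h 1) 1
    simp only [Matrix.mul_apply, hs, conjTranspose_apply, j00, j11, j01, j10] at h00 h01 h11
    refine ⟨?_, ?_, ?_⟩
    · have h0 : ((‖M 0 0‖ ^ 2 : ℝ) : ℂ) - ((‖M 1 0‖ ^ 2 : ℝ) : ℂ) = 1 := by
        rw [star_mul_norm, star_mul_norm]
        linear_combination h00
      exact_mod_cast h0
    · have h1 : ((‖M 1 1‖ ^ 2 : ℝ) : ℂ) - ((‖M 0 1‖ ^ 2 : ℝ) : ℂ) = 1 := by
        rw [star_mul_norm, star_mul_norm]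
        linear_combination -h11
      exact_mod_cast h1
    · linear_combination h01

theorem uni_su (s : SUGroup 1) : Uni s.toMatrix := (uni_iff _).2 s.2

theorem exists_su {M : M2} (hM : Uni M) :
    ∃ (s : SUGroup 1) (c : ℂ), ‖c‖ = 1 ∧ c ^ 2 = M.det ∧ M = c • s.toMatrix := by
  obtain ⟨c, hc⟩ := IsAlgClosed.exists_pow_nat_eq M.det (n := 2) (by norm_num)
  have hc1 : ‖c‖ = 1 := by
    have h1 := norm_det hM
    rw [← hc, norm_pow] at h1
    exact (pow_eq_one_iff_of_nonneg (norm_nonneg c) (by norm_num)).1 h1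
  have hc0 : c ≠ 0 := by
    intro h
    rw [h, norm_zero] at hc1
    exact zero_ne_one hc1
  have hdet : (c⁻¹ • M).det = 1 := by
    rw [Matrix.det_smul, Fintype.card_fin, ← hc, inv_pow, inv_mul_cancel₀ (pow_ne_zero 2 hc0)]
  have hJ : (c⁻¹ • M)ᴴ * J 1 * (c⁻¹ • M) = J 1 := by
    have h1 := (uni_iff M).1 hM
    rw [conjTranspose_smul, Matrix.smul_mul, Matrix.smul_mul, Matrix.mul_smul, smul_smul, h1]
    have h2 : star c⁻¹ * c⁻¹ = 1 := by
      have h3 := star_mul_norm c⁻¹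
      rw [norm_inv, hc1] at h3
      rw [← h3]
      norm_num
    rw [h2, one_smul]
  refine ⟨(⟨⟨c⁻¹ • M, hdet⟩, hJ⟩ : SU 1), c, hc1, hc, ?_⟩
  change M = c • (c⁻¹ • M)
  rw [smul_smul, mul_inv_cancel₀ hc0, one_smul]

theorem mo_smul {c : ℂ} (hc : c ≠ 0) (s : SUGroup 1) (x : ℂ) :
    mo (c • s.toMatrix) x = mb s x := by
  rw [mo, mb, jf]
  simp only [Matrix.smul_apply, smul_eq_mul]
  have h1 : c * s.toMatrix 0 0 * x + c * s.toMatrix 0 1 =
      c * (s.toMatrix 0 0 * x + s.toMatrix 0 1) := by ring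
  have h2 : c * s.toMatrix 1 0 * x + c * s.toMatrix 1 1 =
      c * (s.toMatrix 1 0 * x + s.toMatrix 1 1) := by ring
  rw [h1, h2, mul_div_mul_left _ _ hc]

theorem ne_of_norm {c : ℂ} (hc : ‖c‖ = 1) : c ≠ 0 := by
  intro h
  rw [h, norm_zero] at hc
  exact zero_ne_one hc

/-- The image in `SU(1,1)`. -/
def GG (r : G →* M2) : Subgroup (SUGroup 1) where
  carrier := {s | ∃ (g : G) (c : ℂ), ‖c‖ = 1 ∧ r g = c • s.toMatrix}
  mul_mem' := by
    rintro s t ⟨g, c, hc, h⟩ ⟨g', c', hc', h'⟩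
    refine ⟨g * g', c * c', by rw [norm_mul, hc, hc', one_mul], ?_⟩
    have h1 : (s * t).toMatrix = s.toMatrix * t.toMatrix := rfl
    rw [map_mul, h, h', h1, Matrix.smul_mul, Matrix.mul_smul, smul_smul]
  one_mem' := by
    refine ⟨1, 1, norm_one, ?_⟩
    have h1 : (1 : SUGroup 1).toMatrix = 1 := rfl
    rw [map_one, h1, one_smul]
  inv_mem' := by
    rintro s ⟨g, c, hc, h⟩
    refine ⟨g⁻¹, c⁻¹, by rw [norm_inv, hc, inv_one], ?_⟩
    have h1 : s.toMatrix * (s⁻¹).toMatrix = 1 := by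
      have h2 : (s * s⁻¹).toMatrix = s.toMatrix * (s⁻¹).toMatrix := rfl
      rw [← h2, mul_inv_cancel]
      rfl
    have h3 : r g⁻¹ * r g = 1 := by rw [← map_mul, inv_mul_cancel, map_one]
    calc r g⁻¹ = r g⁻¹ * (s.toMatrix * (s⁻¹).toMatrix) := by rw [h1, mul_one]
      _ = c⁻¹ • (r g⁻¹ * r g * (s⁻¹).toMatrix) := by
        rw [h, Matrix.mul_smul, Matrix.smul_mul, smul_smul, inv_mul_cancel₀ (ne_of_norm hc),
          one_smul, Matrix.mul_assoc]
      _ = c⁻¹ • (s⁻¹).toMatrix := by rw [h3, one_mul]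

theorem mem_GG {s : SUGroup 1} : s ∈ GG r ↔ ∃ (g : G) (c : ℂ), ‖c‖ = 1 ∧ r g = c • s.toMatrix :=
  Iff.rfl

/-- Discreteness. -/
theorem disc_GG (hfin : ∀ R : ℝ, {M : M2 | (∃ g, M = r g) ∧ ‖M 1 1‖ ≤ R}.Finite) :
    DiscreteTopology (GG r) := by
  classical
  have hroot : ∀ d : ℂ, {c : ℂ | c ^ 2 = d}.Finite := by
    intro d
    by_cases h : ∃ c₀ : ℂ, c₀ ^ 2 = d
    · obtain ⟨c₀, hc₀⟩ := h
      refine (Set.toFinite {c₀, -c₀}).subset fun c hc => ?_
      have h1 : c ^ 2 = c₀ ^ 2 := by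
        rw [hc₀]
        exact hc
      rcases sq_eq_sq_iff_eq_or_eq_neg.1 h1 with h | h
      · exact Or.inl h
      · exact Or.inr h
    · refine Set.finite_empty.subset fun c hc => h ⟨c, hc⟩
  have hS : (⋃ M ∈ {M : M2 | (∃ g, M = r g) ∧ ‖M 1 1‖ ≤ 2}, (fun c : ℂ => c⁻¹ • M) ''
      {c : ℂ | c ^ 2 = M.det}).Finite :=
    (hfin 2).biUnion fun M _ => (hroot M.det).image _
  have hinj : Function.Injective (SUGroup.toMatrix (m := 1)) := by
    intro s t h
    exact Subtype.ext (Subtype.ext h)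
  have hK : {s : GG r | ch (s : SUGroup 1) ≤ 2}.Finite := by
    refine (hS.preimage (f := fun s : GG r => (s : SUGroup 1).toMatrix) ?_).subset ?_
    · exact (hinj.comp Subtype.val_injective).injOn
    · intro s hs
      obtain ⟨g, c, hc, h⟩ := s.2
      have hc0 := ne_of_norm hc
      refine Set.mem_biUnion (x := r g) ⟨⟨g, rfl⟩, ?_⟩ ⟨c, ?_, ?_⟩
      · rw [h, Matrix.smul_apply, smul_eq_mul, norm_mul, hc, one_mul]
        exact hs
      · change c ^ 2 = (r g).det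
        have h1 : (s : SUGroup 1).toMatrix.det = 1 := (s : SUGroup 1).1.2
        rw [h, Matrix.det_smul, Fintype.card_fin, h1, mul_one]
      · change c⁻¹ • r g = (s : SUGroup 1).toMatrix
        rw [h, smul_smul, inv_mul_cancel₀ hc0, one_smul]
  rw [discreteTopology_iff_isOpen_singleton_one]
  have hU : IsOpen {s : GG r | ch (s : SUGroup 1) < 2} :=
    isOpen_lt (continuous_ch.comp continuous_subtype_val) continuous_const
  have hF : ({s : GG r | ch (s : SUGroup 1) < 2} \ {1}).Finite :=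
    hK.subset fun s hs => (le_of_lt hs.1 : ch (s : SUGroup 1) ≤ 2)
  have h1 : ({1} : Set (GG r)) = {s : GG r | ch (s : SUGroup 1) < 2} ∩
      ({s : GG r | ch (s : SUGroup 1) < 2} \ {1})ᶜ := by
    ext s
    constructor
    · rintro rfl
      refine ⟨?_, fun h => h.2 rfl⟩
      change ch (1 : SUGroup 1) < 2
      have h2 : ch (1 : SUGroup 1) = 1 := by
        have h3 : (1 : SUGroup 1).toMatrix = 1 := rfl
        rw [ch, h3, Matrix.one_apply_eq, norm_one]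
      rw [h2]
      norm_num
    · rintro ⟨h2, h3⟩
      by_contra h4
      exact h3 ⟨h2, h4⟩
  rw [h1]
  exact hU.inter hF.isClosed.isOpen_compl

theorem coc_GG (hr : ∀ g, Uni (r g)) (hc : Cpt r)
    (hfin : ∀ R : ℝ, {M : M2 | (∃ g, M = r g) ∧ ‖M 1 1‖ ≤ R}.Finite) : Coc (GG r) := by
  refine ⟨disc_GG hfin, ?_⟩
  obtain ⟨ρ, hρ, hcov⟩ := hc
  have hρ0 : 0 < 1 - ρ ^ 2 ∨ ρ < 0 := by
    by_cases h : 0 ≤ ρ
    · left
      nlinarith
    · right
      linarith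
  refine ⟨{s | ch s ≤ Real.sqrt ((1 - ρ ^ 2)⁻¹)}, isCompact_ball _, fun g => ?_⟩
  have h0 : (0 : ℂ) ∈ ball (0 : ℂ) 1 := mem_ball_self one_pos
  obtain ⟨g₀, y, hy, hxy⟩ := hcov (mb g 0) (mb_mem g h0)
  obtain ⟨s, c, hc1, -, hs⟩ := exists_su (hr g₀⁻¹)
  have hyb : y ∈ ball (0 : ℂ) 1 := by
    rw [mem_ball_zero_iff]
    exact lt_of_le_of_lt hy hρ
  refine ⟨s, ⟨g₀⁻¹, c, hc1, hs⟩, ?_⟩
  have h1 : mb s (mb g 0) = y := by
    rw [← mo_smul (ne_of_norm hc1) s, ← hs, hxy, ← mo_mul (hr g₀) hyb, ← map_mul,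
      inv_mul_cancel, map_one, mo_one]
  have h2 : mb (s * g) 0 = y := by
    rw [← h1, ← mo_smul one_ne_zero (s * g), ← mo_smul one_ne_zero s, ← mo_smul one_ne_zero g,
      one_smul, one_smul, one_smul]
    exact mo_mul (uni_su g) h0
  have h3 := one_sub_mo (uni_su (s * g)) h0
  rw [← one_smul ℂ (s * g).toMatrix, mo_smul one_ne_zero, h2, one_smul, norm_zero] at h3
  have h4 : jf (s * g).toMatrix 0 = (s * g).toMatrix 1 1 := by
    rw [jf, mul_zero, zero_add]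
  rw [h4] at h3
  have h5 : (1 - ρ ^ 2) * ‖(s * g).toMatrix 1 1‖ ^ 2 ≤ 1 := by
    have h6 : ‖y‖ ^ 2 ≤ ρ ^ 2 := by
      have := norm_nonneg y
      nlinarith
    nlinarith [sq_nonneg ‖(s * g).toMatrix 1 1‖]
  have h7 : 0 < 1 - ρ ^ 2 := by
    rcases hρ0 with h | h
    · exact h
    · have := norm_nonneg y
      linarith
  have h8 : ch (s * g) = ‖(s * g).toMatrix 1 1‖ := rfl
  change ch (s * g) ≤ _
  rw [h8]
  refine Real.le_sqrt_of_sq_le ?_
  rw [← one_div, le_div_iff₀' h7]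
  exact h5

end Pool.Agent.Lib.MP_5d4057_al.TR
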