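import Pool.Agent.Lib.MP_5d4057_al.TR.Mob

/-! # Products and brackets of forms -/

set_option autoImplicit false

namespace Pool.Agent.Lib.MP_5d4057_al.TR

open Metric Filter Topology

variable {G : Type} [Group G] {r : G →* M2} {μ ν : G → ℂ} {k l : ℕ} {f h : ℂ → ℂ}

theorem Fo.congr (hf : Fo r μ k f) (hμ : ∀ g, μ g = ν g) (hk : k = l) (hh : ∀ x, f x = h x) :
    Fo r ν l h := by
  obtain rfl : μ = ν := funext hμ
  obtain rfl : f = h := funext hh
  subst hk
  exact hf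

theorem Fo.mul (hf : Fo r μ k f) (hh : Fo r ν l h) :
    Fo r (fun g => μ g * ν g) (k + l) (fun x => f x * h x) := by
  refine ⟨hf.diff.mul hh.diff, fun g x hx => ?_⟩
  rw [hf.inv g x hx, hh.inv g x hx, pow_add]
  ring

theorem Fo.pow (hf : Fo r μ k f) (n : ℕ) :
    Fo r (fun g => μ g ^ n) (n * k) (fun x => f x ^ n) := by
  refine ⟨hf.diff.pow n, fun g x hx => ?_⟩
  rw [hf.inv g x hx, mul_pow, mul_pow, ← pow_mul, mul_comm k n]

theorem Fo.sum {ι : Type} (s : Finset ι) (F : ι → ℂ → ℂ) (c : ι → ℂ)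
    (hF : ∀ i ∈ s, Fo r μ k (F i)) : Fo r μ k (fun x => ∑ i ∈ s, c i * F i x) := by
  refine ⟨DifferentiableOn.fun_sum fun i hi => (hF i hi).diff.const_mul (c i),
    fun g x hx => ?_⟩
  rw [Finset.mul_sum]
  refine Finset.sum_congr rfl fun i hi => ?_
  rw [(hF i hi).inv g x hx]
  ring

/-- The derivative of the transformation law. -/
theorem Fo.deriv_inv (hr : ∀ g, Uni (r g)) (hf : Fo r μ k f) (g : G) {x : ℂ}
    (hx : x ∈ ball (0 : ℂ) 1) : deriv f (mo (r g) x) * (r g).det =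
      μ g * (k * (r g) 1 0 * jf (r g) x ^ (k + 1) * f x + jf (r g) x ^ (k + 2) * deriv f x) := by
  have hj := jf_ne (hr g) hx
  have hn := isOpen_ball.mem_nhds hx
  have hn' := isOpen_ball.mem_nhds (mo_mem (hr g) hx)
  have h1 : HasDerivAt (fun y => f (mo (r g) y))
      (deriv f (mo (r g) x) * ((r g).det / jf (r g) x ^ 2)) x :=
    ((hf.diff.differentiableAt hn').hasDerivAt).comp x (hasDerivAt_mo (hr g) hx)
  have hjd : HasDerivAt (fun y : ℂ => jf (r g) y) ((r g) 1 0) x := by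
    simpa [jf] using ((hasDerivAt_id x).const_mul ((r g) 1 0)).add_const ((r g) 1 1)
  have h2 : HasDerivAt (fun y => μ g * jf (r g) y ^ k * f y)
      (μ g * ((k : ℂ) * jf (r g) x ^ (k - 1) * (r g) 1 0) * f x +
        μ g * jf (r g) x ^ k * deriv f x) x :=
    ((hjd.fun_pow k).const_mul (μ g)).fun_mul (hf.diff.differentiableAt hn).hasDerivAt
  have h3 : (fun y => f (mo (r g) y)) =ᶠ[𝓝 x] fun y => μ g * jf (r g) y ^ k * f y := by
    filter_upwards [hn] with y hy
    exact hf.inv g y hy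
  have h4 := h1.unique (h2.congr_of_eventuallyEq h3)
  have h5 : (k : ℂ) * jf (r g) x ^ (k - 1) * jf (r g) x ^ 2 = k * jf (r g) x ^ (k + 1) := by
    rcases Nat.eq_zero_or_pos k with h | h
    · rw [h]
      simp
    · rw [mul_assoc, ← pow_add]
      congr 2
      omega
  have h6 : deriv f (mo (r g) x) * (r g).det =
      deriv f (mo (r g) x) * ((r g).det / jf (r g) x ^ 2) * jf (r g) x ^ 2 := by
    field_simp
  rw [h6, h4]
  have h7 : jf (r g) x ^ (k + 2) = jf (r g) x ^ k * jf (r g) x ^ 2 := pow_add _ _ _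
  rw [h7]
  linear_combination (μ g * (r g) 1 0 * f x) * h5

/-- The first Rankin - Cohen bracket. -/
theorem Fo.bra (hr : ∀ g, Uni (r g)) (hf : Fo r μ k f) (hh : Fo r ν l h) :
    Fo r (fun g => μ g * ν g * ((r g).det)⁻¹) (k + l + 2)
      (fun x => k * f x * deriv h x - l * deriv f x * h x) := by
  refine ⟨?_, fun g x hx => ?_⟩
  · have c1 : DifferentiableOn ℂ (fun _ : ℂ => (k : ℂ)) (ball 0 1) := differentiableOn_const _
    have c2 : DifferentiableOn ℂ (fun _ : ℂ => (l : ℂ)) (ball 0 1) := differentiableOn_const _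
    exact ((c1.mul hf.diff).mul (hh.diff.deriv isOpen_ball)).sub
      ((c2.mul (hf.diff.deriv isOpen_ball)).mul hh.diff)
  · have hd : (r g).det ≠ 0 := by
      intro h0
      have := norm_det (hr g)
      rw [h0, norm_zero] at this
      exact zero_ne_one this
    have e1 := hf.deriv_inv hr g hx
    have e2 := hh.deriv_inv hr g hx
    rw [hf.inv g x hx, hh.inv g x hx]
    have e3 : deriv f (mo (r g) x) = μ g * (k * (r g) 1 0 * jf (r g) x ^ (k + 1) * f x +
        jf (r g) x ^ (k + 2) * deriv f x) * ((r g).det)⁻¹ := by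
      rw [← e1, mul_assoc, mul_inv_cancel₀ hd, mul_one]
    have e4 : deriv h (mo (r g) x) = ν g * (l * (r g) 1 0 * jf (r g) x ^ (l + 1) * h x +
        jf (r g) x ^ (l + 2) * deriv h x) * ((r g).det)⁻¹ := by
      rw [← e2, mul_assoc, mul_inv_cancel₀ hd, mul_one]
    rw [e3, e4]
    ring

theorem Fo.Wr (hr : ∀ g, Uni (r g)) (hk : 0 < k) (hf : Fo r (fun _ => 1) k f)
    (hh : Fo r (fun _ => 1) k h) :
    Fo r (fun g => ((r g).det)⁻¹) (2 * k + 2) (TR.Wr f h) := by
  have hk' : (k : ℂ) ≠ 0 := by exact_mod_cast hk.ne'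
  have h1 := Fo.bra hr hf hh
  refine ⟨(hf.diff.mul (hh.diff.deriv isOpen_ball)).sub
    ((hf.diff.deriv isOpen_ball).mul hh.diff), fun g x hx => ?_⟩
  have h2 := h1.inv g x hx
  simp only [one_mul] at h2
  have h3 : (2 * k + 2) = k + k + 2 := by ring
  rw [h3]
  refine mul_left_cancel₀ hk' ?_
  simp only [TR.Wr]
  linear_combination h2

theorem Fo.Vr (hr : ∀ g, Uni (r g)) (hk : 0 < k) (hf : Fo r (fun _ => 1) k f)
    (hh : Fo r (fun _ => 1) k h) :
    Fo r (fun g => ((r g).det ^ 2)⁻¹) (3 * k + 4) (TR.Vr k f h) := by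
  refine (Fo.bra hr hf (Fo.Wr hr hk hf hh)).congr ?_ ?_ ?_
  · intro g
    rw [one_mul, ← mul_inv, ← pow_two]
  · ring
  · intro x
    simp only [TR.Vr]
    push_cast
    ring

theorem Fo.mon (hr : ∀ g, Uni (r g)) (hk : 0 < k) (hf : Fo r (fun _ => 1) k f)
    (hh : Fo r (fun _ => 1) k h) (N : ℕ) (s : Fin (N + 1) × Fin (N + 1)) :
    Fo r (fun g => ((r g).det ^ (2 * N))⁻¹) (N * (5 * k + 4)) (TR.mon k N f h s) := by
  have hV := Fo.Vr hr hk hf hh
  have hW := Fo.Wr hr hk hf hh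
  have hi : (s.1 : ℕ) ≤ N := Nat.le_of_lt_succ s.1.2
  have hj : (s.2 : ℕ) ≤ N := Nat.le_of_lt_succ s.2.2
  refine ((((hh.pow (s.1 : ℕ)).mul (hf.pow (N - s.1))).mul ((hV.mul hf).pow (s.2 : ℕ))).mul
    ((hW.pow 2).pow (N - s.2))).congr ?_ ?_ ?_
  · intro g
    have e1 : 2 * N = 2 * (s.2 : ℕ) + 2 * (N - s.2) := by omega
    rw [e1, pow_add, mul_inv, one_pow, one_pow, one_mul, one_mul, mul_one, inv_pow, inv_pow,
      inv_pow, ← pow_mul, ← pow_mul]
  · have key : ∀ i j : ℕ, i ≤ N → j ≤ N → i * k + (N - i) * k + j * (3 * k + 4 + k) +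
        (N - j) * (2 * (2 * k + 2)) = N * (5 * k + 4) := by
      intro i j hi hj
      have e3 : i * k + (N - i) * k = N * k := by
        rw [← add_mul, Nat.add_sub_cancel' hi]
      have e4 : j * (4 * k + 4) + (N - j) * (4 * k + 4) = N * (4 * k + 4) := by
        rw [← add_mul, Nat.add_sub_cancel' hj]
      calc i * k + (N - i) * k + j * (3 * k + 4 + k) + (N - j) * (2 * (2 * k + 2)) =
          (i * k + (N - i) * k) + (j * (4 * k + 4) + (N - j) * (4 * k + 4)) := by ring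
        _ = N * k + N * (4 * k + 4) := by rw [e3, e4]
        _ = N * (5 * k + 4) := by ring
    exact key _ _ hi hj
  · intro x
    rfl

end Pool.Agent.Lib.MP_5d4057_al.TR
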