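import Pool.Agent.Lib.MP_5d4057_al.TR.Defs

/-! # Moebius maps of the disc -/

set_option autoImplicit false

namespace Pool.Agent.Lib.MP_5d4057_al.TR

open Metric Matrix

variable {g h : M2}

theorem star_mul_norm (z : ℂ) : ((‖z‖ ^ 2 : ℝ) : ℂ) = star z * z := by
  rw [← Complex.normSq_eq_norm_sq, Complex.normSq_eq_conj_mul_self]
  rfl

/-- `‖(a x + b)‖^2 - ‖c x + d‖^2 = ‖x‖^2 - 1`. -/
theorem norm_id (hg : Uni g) (x : ℂ) :
    ‖jf g x‖ ^ 2 - ‖g 0 0 * x + g 0 1‖ ^ 2 = 1 - ‖x‖ ^ 2 := by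
  obtain ⟨h0, h1, h2⟩ := hg
  rw [jf]
  generalize g 0 0 = a at *
  generalize g 0 1 = b at *
  generalize g 1 0 = c at *
  generalize g 1 1 = d at *
  have h0' : star a * a - star c * c = 1 := by
    rw [← star_mul_norm, ← star_mul_norm, ← Complex.ofReal_sub, h0, Complex.ofReal_one]
  have h1' : star d * d - star b * b = 1 := by
    rw [← star_mul_norm, ← star_mul_norm, ← Complex.ofReal_sub, h1, Complex.ofReal_one]
  have h2' : a * star b = c * star d := by
    have := congrArg star h2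
    rw [star_mul', star_mul', star_star, star_star] at this
    exact this
  have : (((‖c * x + d‖ ^ 2 - ‖a * x + b‖ ^ 2 : ℝ)) : ℂ) = ((1 - ‖x‖ ^ 2 : ℝ) : ℂ) := by
    rw [Complex.ofReal_sub, Complex.ofReal_sub, star_mul_norm, star_mul_norm, star_mul_norm,
      Complex.ofReal_one]
    simp only [star_add, star_mul']
    linear_combination (-(star x * x)) * h0' + h1' - star x * h2 - x * h2'
  exact_mod_cast this

theorem jf_ne (hg : Uni g) {x : ℂ} (hx : x ∈ ball (0 : ℂ) 1) : jf g x ≠ 0 := by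
  intro h
  have hx1 : ‖x‖ < 1 := by simpa using hx
  have hf := norm_id hg x
  rw [h, norm_zero] at hf
  nlinarith [norm_nonneg x, sq_nonneg ‖g 0 0 * x + g 0 1‖]

theorem mo_mem (hg : Uni g) {x : ℂ} (hx : x ∈ ball (0 : ℂ) 1) : mo g x ∈ ball (0 : ℂ) 1 := by
  have hx1 : ‖x‖ < 1 := by simpa using hx
  have hd : 0 < ‖jf g x‖ := norm_pos_iff.2 (jf_ne hg hx)
  have hf := norm_id hg x
  rw [mem_ball_zero_iff, mo, norm_div, div_lt_one hd]
  refine lt_of_pow_lt_pow_left₀ 2 hd.le ?_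
  nlinarith [norm_nonneg x]

theorem one_sub_mo (hg : Uni g) {x : ℂ} (hx : x ∈ ball (0 : ℂ) 1) :
    (1 - ‖mo g x‖ ^ 2) * ‖jf g x‖ ^ 2 = 1 - ‖x‖ ^ 2 := by
  have hd : ‖jf g x‖ ≠ 0 := norm_ne_zero_iff.2 (jf_ne hg hx)
  have hf := norm_id hg x
  rw [mo, norm_div, div_pow, sub_mul, one_mul, div_mul_cancel₀ _ (pow_ne_zero 2 hd)]
  exact hf

theorem norm_det (hg : Uni g) : ‖g.det‖ = 1 := by
  obtain ⟨h0, h1, h2⟩ := hg
  rw [det_fin_two]
  generalize g 0 0 = a at *
  generalize g 0 1 = b at *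
  generalize g 1 0 = c at *
  generalize g 1 1 = d at *
  have h0' : star a * a - star c * c = 1 := by
    rw [← star_mul_norm, ← star_mul_norm, ← Complex.ofReal_sub, h0, Complex.ofReal_one]
  have h1' : star d * d - star b * b = 1 := by
    rw [← star_mul_norm, ← star_mul_norm, ← Complex.ofReal_sub, h1, Complex.ofReal_one]
  have h3 : ‖a * d - b * c‖ ^ 2 = 1 := by
    have : ((‖a * d - b * c‖ ^ 2 : ℝ) : ℂ) = ((1 : ℝ) : ℂ) := by
      rw [star_mul_norm, star_sub, star_mul', star_mul', Complex.ofReal_one]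
      linear_combination (star d * d - star b * b) * h0' + h1' +
        (star b * a - star d * c) * h2
    exact_mod_cast this
  nlinarith [norm_nonneg (a * d - b * c)]

theorem jf_mul (hg : Uni h) {x : ℂ} (hx : x ∈ ball (0 : ℂ) 1) :
    jf (g * h) x = jf g (mo h x) * jf h x := by
  have hd := jf_ne hg hx
  have h1 : mo h x * jf h x = h 0 0 * x + h 0 1 := div_mul_cancel₀ _ hd
  have h2 : jf g (mo h x) * jf h x = g 1 0 * (mo h x * jf h x) + g 1 1 * jf h x := by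
    rw [jf]; ring
  rw [h2, h1, jf, jf, Matrix.mul_apply, Matrix.mul_apply, Fin.sum_univ_two, Fin.sum_univ_two]
  ring

theorem mo_mul (hg : Uni h) {x : ℂ} (hx : x ∈ ball (0 : ℂ) 1) :
    mo (g * h) x = mo g (mo h x) := by
  have hd := jf_ne hg hx
  have h1 : mo h x * jf h x = h 0 0 * x + h 0 1 := div_mul_cancel₀ _ hd
  have h2 : (g * h) 0 0 * x + (g * h) 0 1 = (g 0 0 * mo h x + g 0 1) * jf h x := by
    have h3 : (g 0 0 * mo h x + g 0 1) * jf h x = g 0 0 * (mo h x * jf h x) + g 0 1 * jf h x := by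
      ring
    rw [h3, h1, jf, Matrix.mul_apply, Matrix.mul_apply, Fin.sum_univ_two, Fin.sum_univ_two]
    ring
  have h3 : mo (g * h) x = ((g * h) 0 0 * x + (g * h) 0 1) / jf (g * h) x := rfl
  rw [h3, h2, jf_mul hg hx, mul_div_mul_right _ _ hd]
  rfl

theorem mo_one (x : ℂ) : mo 1 x = x := by
  simp [mo, jf]

theorem hasDerivAt_mo (hg : Uni g) {x : ℂ} (hx : x ∈ ball (0 : ℂ) 1) :
    HasDerivAt (mo g) (g.det / jf g x ^ 2) x := by
  have hd := jf_ne hg hx
  have h1 : HasDerivAt (fun y : ℂ => g 0 0 * y + g 0 1) (g 0 0) x := by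
    simpa using ((hasDerivAt_id x).const_mul (g 0 0)).add_const (g 0 1)
  have h2 : HasDerivAt (fun y : ℂ => jf g y) (g 1 0) x := by
    simpa [jf] using ((hasDerivAt_id x).const_mul (g 1 0)).add_const (g 1 1)
  have h3 := h1.div h2 hd
  have h4 : g 0 0 * jf g x - (g 0 0 * x + g 0 1) * g 1 0 = g.det := by
    rw [det_fin_two, jf]; ring
  rw [h4] at h3
  exact h3

/-- Lower bound of the automorphy factor. -/
theorem jf_ge (hg : Uni g) {x : ℂ} (hx : x ∈ ball (0 : ℂ) 1) :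
    Real.sqrt (1 - ‖x‖ ^ 2) ≤ ‖jf g x‖ := by
  have _ := hx
  have hf := norm_id hg x
  rw [Real.sqrt_le_iff]
  refine ⟨norm_nonneg _, ?_⟩
  nlinarith [sq_nonneg ‖g 0 0 * x + g 0 1‖]

/-- The Moebius map which takes `0` to `p`. -/
theorem exists_mo {p : ℂ} (hp : p ∈ ball (0 : ℂ) 1) : ∃ g : M2, Uni g ∧ mo g 0 = p ∧
    ∃ g' : M2, Uni g' ∧ g * g' = 1 ∧ g' * g = 1 := by
  have hx1 : ‖p‖ < 1 := by simpa using hp
  have hpp : 0 < 1 - ‖p‖ ^ 2 := by nlinarith [norm_nonneg p]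
  obtain ⟨s, hs0, hs⟩ : ∃ s : ℝ, 0 < s ∧ s ^ 2 * (1 - ‖p‖ ^ 2) = 1 := by
    refine ⟨Real.sqrt (1 - ‖p‖ ^ 2)⁻¹, Real.sqrt_pos.2 (inv_pos.2 hpp), ?_⟩
    rw [Real.sq_sqrt (inv_nonneg.2 hpp.le), inv_mul_cancel₀ hpp.ne']
  have hsC : (s : ℂ) ^ 2 * (1 - star p * p) = 1 := by
    rw [← star_mul_norm]
    exact_mod_cast hs
  have hsn : ‖(s : ℂ)‖ = s := by rw [Complex.norm_real, Real.norm_of_nonneg hs0.le]
  have hst : star (s : ℂ) = s := Complex.conj_ofReal s
  have hs1 : (s : ℂ) ≠ 0 := by exact_mod_cast hs0.ne'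
  have key : ∀ u : ℂ, ‖u‖ = ‖p‖ → Uni (!![(s : ℂ), s * u; s * star u, s] : M2) := by
    intro u hu
    refine ⟨?_, ?_, ?_⟩
    · show ‖(s : ℂ)‖ ^ 2 - ‖(s : ℂ) * star u‖ ^ 2 = 1
      rw [norm_mul, norm_star, hsn, hu]; linarith [hs]
    · show ‖(s : ℂ)‖ ^ 2 - ‖(s : ℂ) * u‖ ^ 2 = 1
      rw [norm_mul, hsn, hu]; linarith [hs]
    · show star (s : ℂ) * (s * u) = star ((s : ℂ) * star u) * s
      rw [star_mul', star_star, hst]; ring
  refine ⟨!![(s : ℂ), s * p; s * star p, s], key p rfl, ?_,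
    !![(s : ℂ), s * -p; s * star (-p), s], key (-p) (norm_neg p), ?_, ?_⟩
  · show ((s : ℂ) * 0 + s * p) / (s * star p * 0 + s) = p
    rw [mul_zero, mul_zero, zero_add, zero_add, mul_div_cancel_left₀ _ hs1]
  · ext i j
    rw [Matrix.mul_apply, Fin.sum_univ_two]
    fin_cases i <;> fin_cases j
    · show (s : ℂ) * s + s * p * (s * star (-p)) = 1
      rw [star_neg]; linear_combination hsC
    · show (s : ℂ) * (s * -p) + s * p * s = 0
      ring
    · show (s : ℂ) * star p * s + s * (s * star (-p)) = 0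
      rw [star_neg]; ring
    · show (s : ℂ) * star p * (s * -p) + s * s = 1
      linear_combination hsC
  · ext i j
    rw [Matrix.mul_apply, Fin.sum_univ_two]
    fin_cases i <;> fin_cases j
    · show (s : ℂ) * s + s * -p * (s * star p) = 1
      linear_combination hsC
    · show (s : ℂ) * (s * p) + s * -p * s = 0
      ring
    · show (s : ℂ) * star (-p) * s + s * (s * star p) = 0
      rw [star_neg]; ring
    · show (s : ℂ) * star (-p) * (s * p) + s * s = 1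
      rw [star_neg]; linear_combination hsC

end Pool.Agent.Lib.MP_5d4057_al.TR
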