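import Pool.Agent.Lib.MP_5d4057_al.TR.Defs
import Pool.Agent.Lib.MP_5d4057_al.TR.Alg

/-! # Taylor series at the origin and derivations of the coefficients -/

set_option autoImplicit false

namespace Pool.Agent.Lib.MP_5d4057_al.TR

open Metric

variable {f h : ℂ → ℂ}

/-- The Taylor series at the origin. -/
noncomputable def Ty (f : ℂ → ℂ) : PowerSeries ℂ :=
  PowerSeries.mk fun l => iteratedDeriv l f 0 / (l.factorial : ℂ)

theorem coeff_Ty (f : ℂ → ℂ) (l : ℕ) :
    PowerSeries.coeff l (Ty f) = iteratedDeriv l f 0 / (l.factorial : ℂ) := by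
  rw [Ty, PowerSeries.coeff_mk]

theorem Ty_add (hf : AnalyticAt ℂ f 0) (hh : AnalyticAt ℂ h 0) :
    Ty (fun x => f x + h x) = Ty f + Ty h := by
  ext l
  rw [map_add, coeff_Ty, coeff_Ty, coeff_Ty, iteratedDeriv_fun_add hf.contDiffAt hh.contDiffAt,
    add_div]

theorem Ty_smul (_hf : AnalyticAt ℂ f 0) (c : ℂ) :
    Ty (fun x => c * f x) = PowerSeries.C c * Ty f := by
  ext l
  rw [PowerSeries.coeff_C_mul, coeff_Ty, coeff_Ty, iteratedDeriv_const_mul_field, mul_div_assoc]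

theorem Ty_mul (hf : AnalyticAt ℂ f 0) (hh : AnalyticAt ℂ h 0) :
    Ty (fun x => f x * h x) = Ty f * Ty h := by
  ext l
  rw [PowerSeries.coeff_mul, coeff_Ty, iteratedDeriv_fun_mul hf.contDiffAt hh.contDiffAt,
    Finset.Nat.sum_antidiagonal_eq_sum_range_succ_mk, Finset.sum_div]
  refine Finset.sum_congr rfl fun i hi => ?_
  have hi' : i ≤ l := Nat.lt_succ_iff.1 (Finset.mem_range.1 hi)
  rw [coeff_Ty, coeff_Ty, Nat.cast_choose ℂ hi']
  have h1 : (l.factorial : ℂ) ≠ 0 := by exact_mod_cast l.factorial_ne_zero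
  have h2 : (i.factorial : ℂ) ≠ 0 := by exact_mod_cast i.factorial_ne_zero
  have h3 : ((l - i).factorial : ℂ) ≠ 0 := by exact_mod_cast (l - i).factorial_ne_zero
  field_simp

theorem Ty_deriv : Ty (deriv f) = PowerSeries.derivative ℂ (Ty f) := by
  ext l
  rw [PowerSeries.coeff_derivative, coeff_Ty, coeff_Ty, iteratedDeriv_succ', Nat.factorial_succ]
  have h1 : (l.factorial : ℂ) ≠ 0 := by exact_mod_cast l.factorial_ne_zero
  have h2 : ((l : ℂ) + 1) ≠ 0 := by exact_mod_cast l.succ_ne_zero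
  push_cast
  field_simp

theorem Ty_cst (a : ℂ) : Ty (fun _ => a) = PowerSeries.C a := by
  ext l
  rw [coeff_Ty, PowerSeries.coeff_C]
  rcases l with _ | l
  · simp
  · simp [iteratedDeriv_const]

theorem Ty_idm : Ty (fun x => x) = PowerSeries.X := by
  ext l
  rw [coeff_Ty, PowerSeries.coeff_X, iteratedDeriv_fun_id_zero]
  by_cases hl : l = 1
  · subst hl
    simp
  · simp [hl]

/-- The series of the quadratic polynomial. -/
theorem Ty_quad (a b c : ℂ) : Ty (fun x => a + b * x + c * x ^ 2) =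
    PowerSeries.C a + PowerSeries.C b * PowerSeries.X + PowerSeries.C c * PowerSeries.X ^ 2 := by
  have ha : AnalyticAt ℂ (fun _ : ℂ => a) 0 := analyticAt_const
  have hx : AnalyticAt ℂ (fun x : ℂ => x) 0 := analyticAt_id
  have hbx : AnalyticAt ℂ (fun x : ℂ => b * x) 0 := analyticAt_const.mul hx
  have hx2 : AnalyticAt ℂ (fun x : ℂ => x * x) 0 := hx.mul hx
  have hcx : AnalyticAt ℂ (fun x : ℂ => c * (x * x)) 0 := analyticAt_const.mul hx2
  have e1 : (fun x : ℂ => a + b * x + c * x ^ 2) = fun x => (a + b * x) + c * (x * x) := by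
    funext x
    ring
  have hab : AnalyticAt ℂ (fun x : ℂ => a + b * x) 0 := ha.add hbx
  rw [e1, Ty_add hab hcx, Ty_add ha hbx, Ty_smul hx, Ty_smul hx2, Ty_mul hx hx, Ty_cst,
    Ty_idm, pow_two]

theorem Ty_inj (hf : DifferentiableOn ℂ f (ball 0 1)) (h : Ty f = 0) :
    ∀ x ∈ ball (0 : ℂ) 1, f x = 0 := by
  intro x hx
  have h0 : ∀ l, iteratedDeriv l f 0 = 0 := by
    intro l
    have h1 := congrArg (PowerSeries.coeff l) h
    rw [coeff_Ty, map_zero, div_eq_zero_iff] at h1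
    rcases h1 with h1 | h1
    · exact h1
    · exact absurd (by exact_mod_cast h1) l.factorial_ne_zero
  rw [← Complex.taylorSeries_eq_on_ball hf hx]
  simp [h0]

/-- `D` on the coefficients. -/
noncomputable def DhF (D : Derivation ℤ ℂ ℂ) (φ : PowerSeries ℂ) : PowerSeries ℂ :=
  PowerSeries.mk fun l => D (PowerSeries.coeff l φ)

theorem coeff_DhF (D : Derivation ℤ ℂ ℂ) (φ : PowerSeries ℂ) (l : ℕ) :
    PowerSeries.coeff l (DhF D φ) = D (PowerSeries.coeff l φ) := by
  rw [DhF, PowerSeries.coeff_mk]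

theorem DhF_add (D : Derivation ℤ ℂ ℂ) (a b : PowerSeries ℂ) :
    DhF D (a + b) = DhF D a + DhF D b := by
  ext l
  rw [map_add, coeff_DhF, coeff_DhF, coeff_DhF, map_add, map_add]

theorem DhF_mul (D : Derivation ℤ ℂ ℂ) (a b : PowerSeries ℂ) :
    DhF D (a * b) = a * DhF D b + b * DhF D a := by
  ext l
  rw [coeff_DhF, PowerSeries.coeff_mul, map_sum, map_add, PowerSeries.coeff_mul, mul_comm b,
    PowerSeries.coeff_mul, ← Finset.sum_add_distrib]
  refine Finset.sum_congr rfl fun p _ => ?_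
  rw [Derivation.leibniz, coeff_DhF, coeff_DhF, smul_eq_mul, smul_eq_mul]
  ring

/-- `D` acts on the coefficients. -/
noncomputable def Dh (D : Derivation ℤ ℂ ℂ) : Dv (PowerSeries ℂ) where
  f := DhF D
  add := DhF_add D
  mul a b := by
    rw [DhF_mul, add_comm, mul_comm b]

theorem coeff_Dh (D : Derivation ℤ ℂ ℂ) (φ : PowerSeries ℂ) (l : ℕ) :
    PowerSeries.coeff l (Dh D φ) = D (PowerSeries.coeff l φ) :=
  coeff_DhF D φ l

/-- `d/dX`. -/
noncomputable def dX : Dv (PowerSeries ℂ) where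
  f := fun φ => PowerSeries.derivative ℂ φ
  add x y := map_add _ x y
  mul x y := by
    rw [Derivation.leibniz, smul_eq_mul, smul_eq_mul, add_comm, mul_comm y]

theorem dX_eq (φ : PowerSeries ℂ) : dX φ = PowerSeries.derivative ℂ φ := rfl

theorem D_natCast (D : Derivation ℤ ℂ ℂ) (m : ℕ) : D (m : ℂ) = 0 := by
  exact D.map_natCast m

theorem Dh_dX (D : Derivation ℤ ℂ ℂ) (φ : PowerSeries ℂ) : Dh D (dX φ) = dX (Dh D φ) := by
  ext l
  rw [coeff_Dh, dX_eq, dX_eq, PowerSeries.coeff_derivative, PowerSeries.coeff_derivative, coeff_Dh,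
    Derivation.leibniz, map_add, D_natCast, D.map_one_eq_zero]
  simp [mul_comm]

theorem D_div_natCast (D : Derivation ℤ ℂ ℂ) (z : ℂ) {m : ℕ} (hm : m ≠ 0) :
    D (z / (m : ℂ)) = D z / (m : ℂ) := by
  have hm' : (m : ℂ) ≠ 0 := by exact_mod_cast hm
  have h1 : D ((m : ℂ) * (z / (m : ℂ))) = D z := by
    rw [mul_div_cancel₀ z hm']
  rw [Derivation.leibniz, D_natCast, smul_zero, add_zero, smul_eq_mul] at h1
  rw [← h1]
  field_simp

/-- The input of part S1 in terms of series. -/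
theorem Inp.ser {G : Type} [Group G] {r : G →* M2} {k : ℕ} {A : Submodule ℂ (ℂ → ℂ)}
    (hA : Inp r k A) (D : Derivation ℤ ℂ ℂ) : ∃ Q : PowerSeries ℂ, dX (dX (dX Q)) = 0 ∧
      ∀ f ∈ A, ∃ f₁ ∈ A, 2 * (Dh D (Ty f) - Q * dX (Ty f)) = 2 * Ty f₁ + k * dX Q * Ty f := by
  obtain ⟨a, b, c, habc⟩ := hA.der D
  have hda : ∀ {g : ℂ → ℂ}, g ∈ A → AnalyticAt ℂ g 0 := fun {g} hg =>
    (hA.form g hg).diff.analyticAt (ball_mem_nhds 0 one_pos)
  have hx : AnalyticAt ℂ (fun x : ℂ => x) 0 := analyticAt_id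
  have hq : AnalyticAt ℂ (fun x : ℂ => a + b * x + c * x ^ 2) 0 :=
    (analyticAt_const.add (analyticAt_const.mul hx)).add (analyticAt_const.mul (hx.pow 2))
  have hp : AnalyticAt ℂ (fun x : ℂ => (k : ℂ) / 2 * (b + 2 * c * x)) 0 :=
    analyticAt_const.mul (analyticAt_const.add (analyticAt_const.mul hx))
  have hdq : deriv (fun x : ℂ => a + b * x + c * x ^ 2) = fun x => b + 2 * c * x := by
    funext x
    have h1 : HasDerivAt (fun x : ℂ => a + b * x + c * x ^ 2) (0 + b * 1 + c * (2 * x ^ 1 * 1)) x := by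
      have h2 := ((hasDerivAt_const x a).add ((hasDerivAt_id x).const_mul b)).add
        (((hasDerivAt_id x).pow 2).const_mul c)
      exact h2.congr_deriv (by simp)
    rw [h1.deriv]
    ring
  refine ⟨Ty (fun x => a + b * x + c * x ^ 2), ?_, fun f hf => ?_⟩
  · have h3 : deriv (deriv (deriv (fun x : ℂ => a + b * x + c * x ^ 2))) = fun _ => (0 : ℂ) := by
      have h4 : deriv (fun x : ℂ => b + 2 * c * x) = fun _ => 2 * c := by
        funext x
        have h5 : HasDerivAt (fun x : ℂ => b + 2 * c * x) (0 + 2 * c * 1) x :=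
          (hasDerivAt_const x b).add ((hasDerivAt_id x).const_mul (2 * c))
        rw [h5.deriv]
        ring
      rw [hdq, h4]
      funext x
      exact deriv_const x _
    rw [dX_eq, dX_eq, dX_eq, ← Ty_deriv, ← Ty_deriv, ← Ty_deriv, h3, Ty_cst, map_zero]
  · obtain ⟨f₁, hf₁, hder⟩ := habc f hf
    refine ⟨f₁, hf₁, ?_⟩
    have hfa := hda hf
    have hf1a := hda hf₁
    have hT : Dh D (Ty f) = Ty (fun x => f₁ x + (a + b * x + c * x ^ 2) * deriv f x +
        k / 2 * (b + 2 * c * x) * f x) := by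
      ext l
      rw [coeff_Dh, coeff_Ty, coeff_Ty, D_div_natCast D _ l.factorial_ne_zero, hder l]
    have hd : AnalyticAt ℂ (deriv f) 0 := hfa.deriv
    have h2 : (2 : PowerSeries ℂ) * Ty (fun x => (k : ℂ) / 2 * (b + 2 * c * x) * f x) =
        k * Ty (fun x => b + 2 * c * x) * Ty f := by
      have hl : AnalyticAt ℂ (fun x : ℂ => b + 2 * c * x) 0 :=
        analyticAt_const.add (analyticAt_const.mul hx)
      have e1 : (fun x => (k : ℂ) / 2 * (b + 2 * c * x) * f x) =
          fun x => ((k : ℂ) / 2) * ((b + 2 * c * x) * f x) := by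
        funext x
        ring
      have hlf : AnalyticAt ℂ (fun x : ℂ => (b + 2 * c * x) * f x) 0 := hl.mul hfa
      rw [e1, Ty_smul hlf, Ty_mul hl hfa]
      have e2 : (2 : PowerSeries ℂ) * PowerSeries.C ((k : ℂ) / 2) = (k : PowerSeries ℂ) := by
        have e3 : (2 : PowerSeries ℂ) = PowerSeries.C (2 : ℂ) := (map_ofNat PowerSeries.C 2).symm
        rw [e3, ← map_mul, mul_div_cancel₀ _ two_ne_zero, map_natCast]
      rw [← mul_assoc, e2, mul_assoc]
    have hqd : AnalyticAt ℂ (fun x => (a + b * x + c * x ^ 2) * deriv f x) 0 := hq.mul hd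
    have h1q : AnalyticAt ℂ (fun x => f₁ x + (a + b * x + c * x ^ 2) * deriv f x) 0 :=
      hf1a.add hqd
    have hpf : AnalyticAt ℂ (fun x => (k : ℂ) / 2 * (b + 2 * c * x) * f x) 0 := hp.mul hfa
    rw [hT, Ty_add h1q hpf, Ty_add hf1a hqd, Ty_mul hq hd, Ty_deriv, ← dX_eq]
    have h6 : Ty (fun x : ℂ => b + 2 * c * x) = dX (Ty (fun x : ℂ => a + b * x + c * x ^ 2)) := by
      rw [dX_eq, ← Ty_deriv, hdq]
    rw [h6] at h2
    linear_combination h2

end Pool.Agent.Lib.MP_5d4057_al.TR
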