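import Pool.Agent.Lib.MP_5d4057_al.TR.Ser

/-! # Directional derivatives of the monomials, and their Taylor series -/

set_option autoImplicit false

namespace Pool.Agent.Lib.MP_5d4057_al.TR

open Metric

variable {f h f₁ h₁ : ℂ → ℂ} {k N : ℕ}

/-- The derivative of the Wronskian in the direction `(f₁, h₁)`. -/
noncomputable def dWr (f h f₁ h₁ : ℂ → ℂ) (x : ℂ) : ℂ := Wr f₁ h x + Wr f h₁ x

/-- The derivative of the bracket in the direction `(f₁, h₁)`. -/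
noncomputable def dVr (k : ℕ) (f h f₁ h₁ : ℂ → ℂ) (x : ℂ) : ℂ :=
  k * f₁ x * deriv (Wr f h) x + k * f x * deriv (dWr f h f₁ h₁) x -
    (2 * k + 2) * deriv f₁ x * Wr f h x - (2 * k + 2) * deriv f x * dWr f h f₁ h₁ x

/-- The derivative of the monomial in the direction `(f₁, h₁)`. -/
noncomputable def dmon (k N : ℕ) (f h f₁ h₁ : ℂ → ℂ) (i j : ℕ) (x : ℂ) : ℂ :=
  i * h x ^ (i - 1) * h₁ x * f x ^ (N - i) * (Vr k f h x * f x) ^ j *
    (Wr f h x ^ 2) ^ (N - j) +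
  h x ^ i * ((N - i : ℕ) * f x ^ (N - i - 1) * f₁ x) * (Vr k f h x * f x) ^ j *
    (Wr f h x ^ 2) ^ (N - j) +
  h x ^ i * f x ^ (N - i) * (j * (Vr k f h x * f x) ^ (j - 1) *
    (dVr k f h f₁ h₁ x * f x + Vr k f h x * f₁ x)) * (Wr f h x ^ 2) ^ (N - j) +
  h x ^ i * f x ^ (N - i) * (Vr k f h x * f x) ^ j * ((N - j : ℕ) *
    (Wr f h x ^ 2) ^ (N - j - 1) * (2 * Wr f h x * dWr f h f₁ h₁ x))

theorem diff_deriv (hf : DifferentiableOn ℂ f (ball 0 1)) :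
    DifferentiableOn ℂ (deriv f) (ball 0 1) := hf.deriv isOpen_ball

theorem diff_Wr (hf : DifferentiableOn ℂ f (ball 0 1)) (hh : DifferentiableOn ℂ h (ball 0 1)) :
    DifferentiableOn ℂ (Wr f h) (ball 0 1) :=
  (hf.mul (diff_deriv hh)).sub ((diff_deriv hf).mul hh)

theorem diff_Vr (hf : DifferentiableOn ℂ f (ball 0 1)) (hh : DifferentiableOn ℂ h (ball 0 1)) :
    DifferentiableOn ℂ (Vr k f h) (ball 0 1) := by
  refine ((((differentiableOn_const (c := (k : ℂ))).mul hf).mul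
    (diff_deriv (diff_Wr hf hh))).sub ?_)
  exact ((differentiableOn_const (c := (2 * (k : ℂ) + 2))).mul (diff_deriv hf)).mul
    (diff_Wr hf hh)

theorem diff_dWr (hf : DifferentiableOn ℂ f (ball 0 1)) (hh : DifferentiableOn ℂ h (ball 0 1))
    (hf₁ : DifferentiableOn ℂ f₁ (ball 0 1)) (hh₁ : DifferentiableOn ℂ h₁ (ball 0 1)) :
    DifferentiableOn ℂ (dWr f h f₁ h₁) (ball 0 1) :=
  (diff_Wr hf₁ hh).add (diff_Wr hf hh₁)

theorem diff_dVr (hf : DifferentiableOn ℂ f (ball 0 1)) (hh : DifferentiableOn ℂ h (ball 0 1))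
    (hf₁ : DifferentiableOn ℂ f₁ (ball 0 1)) (hh₁ : DifferentiableOn ℂ h₁ (ball 0 1)) :
    DifferentiableOn ℂ (dVr k f h f₁ h₁) (ball 0 1) := by
  have c1 : DifferentiableOn ℂ (fun _ : ℂ => (k : ℂ)) (ball 0 1) := differentiableOn_const _
  have c2 : DifferentiableOn ℂ (fun _ : ℂ => (2 * (k : ℂ) + 2)) (ball 0 1) :=
    differentiableOn_const _
  exact ((((c1.mul hf₁).mul (diff_deriv (diff_Wr hf hh))).add
    ((c1.mul hf).mul (diff_deriv (diff_dWr hf hh hf₁ hh₁)))).sub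
    ((c2.mul (diff_deriv hf₁)).mul (diff_Wr hf hh))).sub
    ((c2.mul (diff_deriv hf)).mul (diff_dWr hf hh hf₁ hh₁))

theorem diff_mon (hf : DifferentiableOn ℂ f (ball 0 1)) (hh : DifferentiableOn ℂ h (ball 0 1))
    (s : Fin (N + 1) × Fin (N + 1)) : DifferentiableOn ℂ (mon k N f h s) (ball 0 1) :=
  (((hh.pow _).mul (hf.pow _)).mul (((diff_Vr hf hh).mul hf).pow _)).mul
    (((diff_Wr hf hh).pow _).pow _)

theorem diff_dmon (hf : DifferentiableOn ℂ f (ball 0 1)) (hh : DifferentiableOn ℂ h (ball 0 1))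
    (hf₁ : DifferentiableOn ℂ f₁ (ball 0 1)) (hh₁ : DifferentiableOn ℂ h₁ (ball 0 1))
    (i j : ℕ) : DifferentiableOn ℂ (dmon k N f h f₁ h₁ i j) (ball 0 1) := by
  have cc : ∀ c : ℂ, DifferentiableOn ℂ (fun _ : ℂ => c) (ball 0 1) :=
    fun c => differentiableOn_const _
  have hV := diff_Vr (k := k) hf hh
  have hW := diff_Wr hf hh
  have hdV := diff_dVr (k := k) hf hh hf₁ hh₁
  have hdW := diff_dWr hf hh hf₁ hh₁
  exact (((((((cc _).mul (hh.pow _)).mul hh₁).mul (hf.pow _)).mul ((hV.mul hf).pow _)).mul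
    ((hW.pow _).pow _)).add
    ((((hh.pow _).mul (((cc _).mul (hf.pow _)).mul hf₁)).mul ((hV.mul hf).pow _)).mul
    ((hW.pow _).pow _))).add
    ((((hh.pow _).mul (hf.pow _)).mul ((((cc _).mul ((hV.mul hf).pow _)).mul
    ((hdV.mul hf).add (hV.mul hf₁))))).mul ((hW.pow _).pow _)) |>.add
    ((((hh.pow _).mul (hf.pow _)).mul ((hV.mul hf).pow _)).mul
    (((cc _).mul ((hW.pow _).pow _)).mul (((cc _).mul hW).mul hdW)))

end Pool.Agent.Lib.MP_5d4057_al.TR
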