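import Pool.Agent.Lib.MP_5d4057_al.TR.SubA

/-! # Taylor series of the monomials and of their directional derivatives -/

set_option autoImplicit false

namespace Pool.Agent.Lib.MP_5d4057_al.TR

open Metric Filter Topology

variable {f h f₁ h₁ : ℂ → ℂ} {k N : ℕ}

/-- `Φ` is the Taylor series of `F`. -/
structure IsT (F : ℂ → ℂ) (Φ : PowerSeries ℂ) : Prop where
  diff : DifferentiableOn ℂ F (ball 0 1)
  ty : Ty F = Φ

theorem an0 (hf : DifferentiableOn ℂ f (ball 0 1)) : AnalyticAt ℂ f 0 :=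
  hf.analyticAt (isOpen_ball.mem_nhds (mem_ball_self one_pos))

theorem Ty_congr (h : f =ᶠ[𝓝 0] h₁) : Ty f = Ty h₁ := by
  ext l
  simp only [Ty, PowerSeries.coeff_mk]
  rw [h.iteratedDeriv_eq l]

theorem Ty_const (c : ℂ) : Ty (fun _ => c) = PowerSeries.C c := by
  have h1 := Ty_quad c 0 0
  have h2 : (fun x : ℂ => c + 0 * x + 0 * x ^ 2) = fun _ => c := by
    funext x
    ring
  rw [h2] at h1
  rw [h1]
  simp

variable {F H : ℂ → ℂ} {Φ Ψ : PowerSeries ℂ}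

theorem IsT.of (hf : DifferentiableOn ℂ f (ball 0 1)) : IsT f (Ty f) := ⟨hf, rfl⟩

theorem IsT.const (c : ℂ) : IsT (fun _ => c) (PowerSeries.C c) :=
  ⟨differentiableOn_const _, Ty_const c⟩

theorem IsT.nat (n : ℕ) : IsT (fun _ => (n : ℂ)) (n : PowerSeries ℂ) :=
  ⟨differentiableOn_const _, by rw [Ty_const]; exact map_natCast _ n⟩

theorem IsT.add (hF : IsT F Φ) (hH : IsT H Ψ) : IsT (fun x => F x + H x) (Φ + Ψ) :=
  ⟨hF.diff.add hH.diff, by rw [Ty_add (an0 hF.diff) (an0 hH.diff), hF.ty, hH.ty]⟩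

theorem IsT.mul (hF : IsT F Φ) (hH : IsT H Ψ) : IsT (fun x => F x * H x) (Φ * Ψ) :=
  ⟨hF.diff.mul hH.diff, by rw [Ty_mul (an0 hF.diff) (an0 hH.diff), hF.ty, hH.ty]⟩

theorem IsT.sub (hF : IsT F Φ) (hH : IsT H Ψ) : IsT (fun x => F x - H x) (Φ - Ψ) := by
  refine ⟨hF.diff.sub hH.diff, ?_⟩
  have h1 := Ty_add (an0 (hF.diff.sub hH.diff)) (an0 hH.diff)
  have h2 : (fun x => (F - H) x + H x) = F := by
    funext x
    simp
  rw [h2, hF.ty, hH.ty] at h1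
  rw [h1]
  exact (add_sub_cancel_right _ _).symm

theorem IsT.pow (hF : IsT F Φ) (n : ℕ) : IsT (fun x => F x ^ n) (Φ ^ n) := by
  induction n with
  | zero =>
    simp only [pow_zero]
    have := IsT.const 1
    rwa [map_one] at this
  | succ n ih =>
    simp only [pow_succ]
    exact ih.mul hF

theorem IsT.deriv (hF : IsT F Φ) : IsT (deriv F) (dX Φ) :=
  ⟨hF.diff.deriv isOpen_ball, by rw [Ty_deriv, hF.ty, dX_eq]⟩

theorem IsT.two : IsT (fun _ => (2 : ℂ)) (2 : PowerSeries ℂ) := by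
  have := IsT.nat 2
  simpa using this

theorem IsT.kk (k : ℕ) : IsT (fun _ => (2 * (k : ℂ) + 2)) (2 * (k : PowerSeries ℂ) + 2) := by
  have := (IsT.two.mul (IsT.nat k)).add IsT.two
  exact this

variable {Φ₁ Ψ₁ : PowerSeries ℂ}

theorem IsT.Wr (hf : IsT f Φ) (hh : IsT h Ψ) : IsT (TR.Wr f h) (wr dX Φ Ψ) :=
  (hf.mul hh.deriv).sub (hf.deriv.mul hh)

theorem IsT.Vr (hf : IsT f Φ) (hh : IsT h Ψ) : IsT (TR.Vr k f h) (vr dX k Φ Ψ) :=
  (((IsT.nat k).mul hf).mul (hf.Wr hh).deriv).sub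
    (((IsT.kk k).mul hf.deriv).mul (hf.Wr hh))

theorem IsT.dWr (hf : IsT f Φ) (hh : IsT h Ψ) (hf₁ : IsT f₁ Φ₁) (hh₁ : IsT h₁ Ψ₁) :
    IsT (TR.dWr f h f₁ h₁) (dwr dX Φ Ψ Φ₁ Ψ₁) :=
  (hf₁.Wr hh).add (hf.Wr hh₁)

theorem IsT.dVr (hf : IsT f Φ) (hh : IsT h Ψ) (hf₁ : IsT f₁ Φ₁) (hh₁ : IsT h₁ Ψ₁) :
    IsT (TR.dVr k f h f₁ h₁) (dvr dX k Φ Ψ Φ₁ Ψ₁) :=
  (((((IsT.nat k).mul hf₁).mul (hf.Wr hh).deriv).add
    (((IsT.nat k).mul hf).mul (hf.dWr hh hf₁ hh₁).deriv)).sub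
    (((IsT.kk k).mul hf₁.deriv).mul (hf.Wr hh))).sub
    (((IsT.kk k).mul hf.deriv).mul (hf.dWr hh hf₁ hh₁))

theorem IsT.mon (hf : IsT f Φ) (hh : IsT h Ψ) (s : Fin (N + 1) × Fin (N + 1)) :
    IsT (TR.mon k N f h s) (mn dX k N Φ Ψ s.1 s.2) :=
  (((hh.pow _).mul (hf.pow _)).mul (((hf.Vr hh).mul hf).pow _)).mul
    (((hf.Wr hh).pow 2).pow _)

theorem IsT.dmon (hf : IsT f Φ) (hh : IsT h Ψ) (hf₁ : IsT f₁ Φ₁) (hh₁ : IsT h₁ Ψ₁) (i j : ℕ) :
    IsT (TR.dmon k N f h f₁ h₁ i j) (dmn dX k N Φ Ψ Φ₁ Ψ₁ i j) :=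
  ((((((((IsT.nat i).mul (hh.pow _)).mul hh₁).mul (hf.pow _)).mul
      (((hf.Vr hh).mul hf).pow _)).mul (((hf.Wr hh).pow 2).pow _)).add
    ((((hh.pow _).mul (((IsT.nat _).mul (hf.pow _)).mul hf₁)).mul
      (((hf.Vr hh).mul hf).pow _)).mul (((hf.Wr hh).pow 2).pow _))).add
    ((((hh.pow _).mul (hf.pow _)).mul (((IsT.nat _).mul (((hf.Vr hh).mul hf).pow _)).mul
      (((hf.dVr hh hf₁ hh₁).mul hf).add ((hf.Vr hh).mul hf₁)))).mul
      (((hf.Wr hh).pow 2).pow _))).add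
    ((((hh.pow _).mul (hf.pow _)).mul (((hf.Vr hh).mul hf).pow _)).mul
      (((IsT.nat _).mul (((hf.Wr hh).pow 2).pow _)).mul
      ((IsT.two.mul (hf.Wr hh)).mul (hf.dWr hh hf₁ hh₁))))

theorem deriv_line {x : ℂ} (a : DifferentiableAt ℂ f x) (b : DifferentiableAt ℂ f₁ x) (e : ℂ) :
    deriv (fun y => f y + e * f₁ y) x = deriv f x + e * deriv f₁ x :=
  (a.hasDerivAt.fun_add (b.hasDerivAt.const_mul e)).deriv

/-- The Wronskian of a pencil. -/
theorem Wr_line (hf : DifferentiableOn ℂ f (ball 0 1)) (hh : DifferentiableOn ℂ h (ball 0 1))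
    (hf₁ : DifferentiableOn ℂ f₁ (ball 0 1)) (hh₁ : DifferentiableOn ℂ h₁ (ball 0 1)) (e : ℂ)
    {x : ℂ} (hx : x ∈ ball (0 : ℂ) 1) :
    Wr (fun y => f y + e * f₁ y) (fun y => h y + e * h₁ y) x =
      Wr f h x + e * dWr f h f₁ h₁ x + e ^ 2 * Wr f₁ h₁ x := by
  have hn := isOpen_ball.mem_nhds hx
  have d1 := deriv_line (hf.differentiableAt hn) (hf₁.differentiableAt hn) e
  have d2 := deriv_line (hh.differentiableAt hn) (hh₁.differentiableAt hn) e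
  simp only [Wr, dWr, d1, d2]
  ring

theorem deriv_Wr_line (hf : DifferentiableOn ℂ f (ball 0 1))
    (hh : DifferentiableOn ℂ h (ball 0 1))
    (hf₁ : DifferentiableOn ℂ f₁ (ball 0 1)) (hh₁ : DifferentiableOn ℂ h₁ (ball 0 1)) (e : ℂ)
    {x : ℂ} (hx : x ∈ ball (0 : ℂ) 1) :
    deriv (Wr (fun y => f y + e * f₁ y) (fun y => h y + e * h₁ y)) x =
      deriv (Wr f h) x + e * deriv (dWr f h f₁ h₁) x + e ^ 2 * deriv (Wr f₁ h₁) x := by
  have hn := isOpen_ball.mem_nhds hx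
  have h1 : Wr (fun y => f y + e * f₁ y) (fun y => h y + e * h₁ y) =ᶠ[𝓝 x]
      fun y => Wr f h y + e * dWr f h f₁ h₁ y + e ^ 2 * Wr f₁ h₁ y := by
    filter_upwards [hn] with y hy
    exact Wr_line hf hh hf₁ hh₁ e hy
  rw [h1.deriv_eq]
  have a1 := (diff_Wr hf hh).differentiableAt hn
  have a2 := (diff_dWr hf hh hf₁ hh₁).differentiableAt hn
  have a3 := (diff_Wr hf₁ hh₁).differentiableAt hn
  exact ((a1.hasDerivAt.fun_add (a2.hasDerivAt.const_mul e)).fun_add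
    (a3.hasDerivAt.const_mul (e ^ 2))).deriv

/-- The derivative of the monomials in the parameters. -/
theorem hasDerivAt_mon (hf : DifferentiableOn ℂ f (ball 0 1))
    (hh : DifferentiableOn ℂ h (ball 0 1))
    (hf₁ : DifferentiableOn ℂ f₁ (ball 0 1)) (hh₁ : DifferentiableOn ℂ h₁ (ball 0 1))
    (s : Fin (N + 1) × Fin (N + 1)) {x : ℂ} (hx : x ∈ ball (0 : ℂ) 1) :
    HasDerivAt (fun e : ℂ => mon k N (fun y => f y + e * f₁ y) (fun y => h y + e * h₁ y) s x)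
      (dmon k N f h f₁ h₁ s.1 s.2 x) 0 := by
  have hn := isOpen_ball.mem_nhds hx
  have pf : HasDerivAt (fun e : ℂ => f x + e * f₁ x) (f₁ x) 0 := by
    simpa using ((hasDerivAt_id (0 : ℂ)).mul_const (f₁ x)).const_add (f x)
  have ph : HasDerivAt (fun e : ℂ => h x + e * h₁ x) (h₁ x) 0 := by
    simpa using ((hasDerivAt_id (0 : ℂ)).mul_const (h₁ x)).const_add (h x)
  have pl : ∀ A B C : ℂ, HasDerivAt (fun e : ℂ => A + e * B + e ^ 2 * C) B 0 := by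
    intro A B C
    have h1 := (((hasDerivAt_id' (0 : ℂ)).mul_const B).const_add A).fun_add
      (((hasDerivAt_id' (0 : ℂ)).fun_pow 2).mul_const C)
    simpa using h1
  have pW : HasDerivAt (fun e : ℂ => Wr (fun y => f y + e * f₁ y) (fun y => h y + e * h₁ y) x)
      (dWr f h f₁ h₁ x) 0 := by
    have h1 : (fun e : ℂ => Wr (fun y => f y + e * f₁ y) (fun y => h y + e * h₁ y) x) =
        fun e => Wr f h x + e * dWr f h f₁ h₁ x + e ^ 2 * Wr f₁ h₁ x := by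
      funext e
      exact Wr_line hf hh hf₁ hh₁ e hx
    rw [h1]
    exact pl _ _ _
  have pdW : HasDerivAt (fun e : ℂ => deriv (Wr (fun y => f y + e * f₁ y)
      (fun y => h y + e * h₁ y)) x) (deriv (dWr f h f₁ h₁) x) 0 := by
    have h1 : (fun e : ℂ => deriv (Wr (fun y => f y + e * f₁ y) (fun y => h y + e * h₁ y)) x) =
        fun e => deriv (Wr f h) x + e * deriv (dWr f h f₁ h₁) x + e ^ 2 * deriv (Wr f₁ h₁) x := by
      funext e
      exact deriv_Wr_line hf hh hf₁ hh₁ e hx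
    rw [h1]
    exact pl _ _ _
  have pdf : HasDerivAt (fun e : ℂ => deriv (fun y => f y + e * f₁ y) x) (deriv f₁ x) 0 := by
    have h1 : (fun e : ℂ => deriv (fun y => f y + e * f₁ y) x) =
        fun e => deriv f x + e * deriv f₁ x := by
      funext e
      exact deriv_line (hf.differentiableAt hn) (hf₁.differentiableAt hn) e
    rw [h1]
    simpa using ((hasDerivAt_id (0 : ℂ)).mul_const (deriv f₁ x)).const_add (deriv f x)
  have e1 : ∀ u : ℂ → ℂ, ∀ v : ℂ → ℂ, (fun y => u y + 0 * v y) = u := by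
    intro u v
    funext y
    ring
  have pV : HasDerivAt (fun e : ℂ => Vr k (fun y => f y + e * f₁ y) (fun y => h y + e * h₁ y) x)
      (dVr k f h f₁ h₁ x) 0 := by
    have h1 := (((pf.const_mul (k : ℂ)).fun_mul pdW).fun_sub
      ((pdf.const_mul (2 * (k : ℂ) + 2)).fun_mul pW))
    simp only [e1] at h1
    refine (h1.congr_deriv ?_)
    simp only [dVr, zero_mul, add_zero]
    ring
  have h2 := (((ph.fun_pow (s.1 : ℕ)).fun_mul (pf.fun_pow (N - s.1))).fun_mul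
    ((pV.fun_mul pf).fun_pow (s.2 : ℕ))).fun_mul ((pW.fun_pow 2).fun_pow (N - s.2))
  simp only [e1] at h2
  refine (h2.congr_deriv ?_)
  simp only [dmon, zero_mul, add_zero, Nat.cast_ofNat]
  ring

end Pool.Agent.Lib.MP_5d4057_al.TR
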